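import Pool.Agent.H26.LM.Defs
import Pool.Agent.H26.FC.Fun
import Pool.Agent.H26.FC.Frm
import Pool.Agent.H26.FM.Fac
import Pool.Agent.H44.GD.Sub

/-!
# Basic facts on limits
-/

noncomputable section

namespace GD

open Complex

variable {S : Str} {k : ℕ} {T : Fin k → Str} (V : LimFam S T)

/-- The limit of the frame is a basis. -/
theorem LimFam.basis : LinearIndependent ℂ V.ω ∧ Submodule.span ℂ (Set.range V.ω) = ⊤ := by
  have hspan : Submodule.span ℂ (Set.range V.ω) = ⊤ := by
    -- the vectors which are supported in one graded piece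
    have h1 : ∀ j (y : (T j).W), ∃ w, V.gr j w = y ∧ (∀ j', j' ≠ j → V.gr j' w = 0) ∧
        w ∈ Submodule.span ℂ (Set.range V.ω) := by
      intro j y
      have hy : y ∈ Submodule.span ℂ ((T j).D : Set (T j).W) := by
        rw [(T j).span_D]
        exact Submodule.mem_top
      induction hy using Submodule.span_induction with
      | mem x hx =>
        obtain ⟨w, hw, -⟩ := V.gr_bij (Function.update (fun j' => (0 : (T j').W)) j x)
        have h3 : V.gr j w = x := by rw [hw, Function.update_self]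
        have h4 : ∀ j', j' ≠ j → V.gr j' w = 0 := fun j' hj' => by
          rw [hw, Function.update_of_ne hj']
        refine ⟨w, h3, h4, ?_⟩
        have h5 : w ∈ Submodule.span Qbar (Set.range V.ω) := by
          rw [← V.gr_D]
          intro j'
          by_cases hj' : j' = j
          · subst hj'
            rw [h3]
            exact hx
          · rw [h4 j' hj']
            exact zero_mem _
        exact Submodule.span_subset_span Qbar ℂ _ h5
      | zero => exact ⟨0, map_zero _, fun _ _ => map_zero _, zero_mem _⟩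
      | add x y _ _ hx hy =>
        obtain ⟨w, a1, a2, a3⟩ := hx
        obtain ⟨w', b1, b2, b3⟩ := hy
        refine ⟨w + w', by rw [map_add, a1, b1], fun j' hj' => ?_, add_mem a3 b3⟩
        rw [map_add, a2 j' hj', b2 j' hj', add_zero]
      | smul c x _ hx =>
        obtain ⟨w, a1, a2, a3⟩ := hx
        refine ⟨c • w, by rw [map_smul, a1], fun j' hj' => ?_, Submodule.smul_mem _ _ a3⟩
        rw [map_smul, a2 j' hj', smul_zero]
    rw [eq_top_iff]
    intro w _
    choose f hf1 hf2 hf3 using fun j => h1 j (V.gr j w)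
    have h2 : w = ∑ j, f j := by
      obtain ⟨w', -, huniq⟩ := V.gr_bij fun j => V.gr j w
      rw [huniq w fun j => rfl, huniq (∑ j, f j) fun j => ?_]
      rw [map_sum, Finset.sum_eq_single j]
      · exact hf1 j
      · intro j' _ hj'
        exact hf2 j' j (Ne.symm hj')
      · simp
    rw [h2]
    exact Submodule.sum_mem _ fun j _ => hf3 j
  refine ⟨?_, hspan⟩
  have hn : Module.finrank ℂ S.W = V.H.n := by
    have h1 := finrank_span_eq_card (V.H.indep V.s V.hs.1)
    rw [V.H.span V.s V.hs.1, finrank_top, Fintype.card_fin] at h1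
    exact h1
  exact linearIndependent_of_top_le_span_of_card_eq_finrank hspan.ge (by rw [Fintype.card_fin, hn])

/-- Frames of a flat subspace near the fibre `S` and the limit. -/
def LimFam.LimSub (L : Submodule ℂ S.W) : Prop :=
  ∃ (m : ℕ) (c : Fin m → Fin V.H.n → ℂ → ℂ) (r : ℂ → ℂ) (c₀ : Fin m → Fin V.H.n → ℂ) (r₀ : ℂ),
    (∀ i j, c i j ∈ V.B.A) ∧ r ∈ V.B.A ∧ r V.s ≠ 0 ∧ r₀ ≠ 0 ∧
    Filter.Tendsto r V.l (nhds r₀) ∧ (∀ i j, Filter.Tendsto (c i j) V.l (nhds (c₀ i j))) ∧
    (∀ z ∈ V.B.U, r z ≠ 0 → (LinearIndependent ℂ fun i => ∑ j, c i j z • V.H.ω j z) ∧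
      Submodule.span ℂ (Set.range fun i => ∑ j, c i j z • V.H.ω j z) = L) ∧
    (LinearIndependent ℂ fun i => ∑ j, c₀ i j • V.ω j) ∧
      Submodule.span ℂ (Set.range fun i => ∑ j, c₀ i j • V.ω j) = L

/-- The sections of the projections to the graded pieces. -/
theorem LimFam.exists_sec : ∃ σ : ∀ j, (T j).W →ₗ[ℂ] S.W, (∀ j y, V.gr j (σ j y) = y) ∧
    (∀ j j' y, j' ≠ j → V.gr j' (σ j y) = 0) ∧ ∀ w, w = ∑ j, σ j (V.gr j w) := by
  classical
  let Γ : S.W →ₗ[ℂ] ∀ j, (T j).W := LinearMap.pi V.gr
  have hΓ : Function.Bijective Γ := by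
    constructor
    · intro w w' h
      obtain ⟨x, -, hx⟩ := V.gr_bij fun j => V.gr j w
      rw [hx w fun j => rfl, hx w' fun j => (congrFun h j).symm]
    · intro y
      obtain ⟨x, hx, -⟩ := V.gr_bij y
      exact ⟨x, funext hx⟩
  let e : S.W ≃ₗ[ℂ] ∀ j, (T j).W := LinearEquiv.ofBijective Γ hΓ
  have he : ∀ w j, e w j = V.gr j w := fun w j => rfl
  have hs : ∀ j y j', V.gr j' (e.symm (Pi.single j y)) = Pi.single (M := fun j => (T j).W) j y j' := by
    intro j y j'
    rw [← he, e.apply_symm_apply]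
  refine ⟨fun j => e.symm.toLinearMap.comp (LinearMap.single ℂ (fun j => (T j).W) j), ?_, ?_, ?_⟩
  · intro j y
    change V.gr j (e.symm (Pi.single j y)) = y
    rw [hs, Pi.single_eq_same]
  · intro j j' y hj
    change V.gr j' (e.symm (Pi.single j y)) = 0
    rw [hs, Pi.single_eq_of_ne hj]
  · intro w
    change w = ∑ j, e.symm (Pi.single j (V.gr j w))
    apply e.injective
    rw [map_sum]
    simp only [e.apply_symm_apply]
    funext j
    rw [Finset.sum_apply, Finset.sum_eq_single j]
    · rw [Pi.single_eq_same, he]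
    · intro j' _ hj'
      rw [Pi.single_eq_of_ne (Ne.symm hj')]
    · simp

/-- The operators which respect the family preserve the eigenparts. -/
theorem eigenpart_stable {K : Type} [Field K] (φ : K →ₙ+* Module.End ℂ S.W) (τ : K →+* ℂ)
    {G : S.W →ₗ[ℂ] S.W} (hG : ∀ a w, G (φ a w) = φ a (G w)) :
    ∀ w ∈ eigenpart φ τ, G w ∈ eigenpart φ τ := by
  intro w hw
  rw [mem_eigenpart] at hw ⊢
  intro a
  rw [← hG, hw, map_smul]

end GD
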