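import Pool.Agent.H26.FM.Act
import Pool.Agent.H26.FC.Var
import Pool.Agent.H44.FM.GammaDefs

/-!
# Degenerating families over algebraic curves
-/

noncomputable section

namespace GD

open Complex

/-- `S` is a fibre of a polarised variation on a curve over the algebraic numbers, and the
structures `T j` are the graded pieces of the limit of the fibres at a point of the curve, or at a
cusp with unipotent monodromy.

Example: a cusp with parameter `q`, where `N` is the logarithm of the monodromy. The frame of the
variation is a frame of the canonical extension, `l` is the filter `q → 0` on a component of the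
preimage of a neighbourhood of the cusp in the universal cover, and `ω` is the frame of the limit
mixed structure. A splitting of its weight filtration over the rational numbers and one over the
algebraic numbers (both stable under the given operators) differ by a unipotent operator `v`, and
`u z` is the product of `v` and `exp (-N log q / 2πi)`, which commute with the given operators and
are the identity on the graded pieces. At a point of the curve `k = 1` and `u z = 1`. -/
structure LimFam (S : Str) {k : ℕ} (T : Fin k → Str) where
  /-- the curve -/
  B : Curve
  /-- the variation -/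
  H : Variation B S
  /-- the parameter of `S` -/
  s : ℂ
  hs : s ∈ B.U ∧ B.x s ∈ Qbar
  dR_s : S.D = Submodule.span Qbar (Set.range fun i => H.ω i s)
  /-- the point of the curve, or the cusp, as a filter -/
  l : Filter ℂ
  l_U : B.U ∈ l ∧ l.NeBot
  l_val : ∀ a, Reg B.A a → ∀ c, Filter.Tendsto a l (nhds c) → c ∈ Qbar
  /-- the projections to the graded pieces, for a splitting of the weight filtration -/
  gr : ∀ j, S.W →ₗ[ℂ] (T j).W
  gr_bij : ∀ y : ∀ j, (T j).W, ∃! w, ∀ j, gr j w = y j
  gr_B : ∀ w, w ∈ S.B ↔ ∀ j, gr j w ∈ (T j).B
  /-- the unipotent twist of the fibres near the cusp -/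
  u : ℂ → Module.End ℂ S.W
  unip : ∀ z, IsNilpotent (u z - 1)
  /-- the limit of the twisted frame -/
  ω : Fin H.n → S.W
  lim : ∀ (f : S.W →ₗ[ℂ] ℂ) (i), Filter.Tendsto (fun z => f (u z (H.ω i z))) l (nhds (f (ω i)))
  gr_D : ∀ w, (∀ j, gr j w ∈ (T j).D) ↔ w ∈ Submodule.span Qbar (Set.range ω)

/-- An action of the field `K` on a factor of `S`, the image of the projector `κ 1`. -/
abbrev Act (K : Type) [Field K] (S : Str) : Type := K →ₙ+* Module.End ℂ S.W

variable {S : Str} {k : ℕ} {T : Fin k → Str} (V : LimFam S T)

/-- The operator `f` commutes with the monodromy and the twist, and respects the splitting. -/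
def LimFam.Resp (f : Module.End ℂ S.W) : Prop :=
  ∀ w, (∀ g ∈ V.H.deck, g.act (f w) = f (g.act w)) ∧ (∀ z, V.u z (f w) = f (V.u z w)) ∧
    ∀ j, V.gr j w = 0 → V.gr j (f w) = 0

/-- The vector `w` is invariant under the monodromy and the twist, and lies in the graded piece with
the index `j`. -/
def LimFam.Const (j : Fin k) (w : S.W) : Prop :=
  (∀ g ∈ V.H.deck, g.act w = w) ∧ (∀ z, V.u z w = w) ∧ ∀ j', j' ≠ j → V.gr j' w = 0

/-- The action `κ` of the field `K` on a factor of the fibre `S` is flat: it preserves the Betti, de
Rham and Hodge data, commutes with the monodromy and the twist, and respects the splitting, and the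
parts on which `K` acts through one embedding have the same Hodge numbers in the limit. -/
def LimFam.Flat {K : Type} [Field K] (κ : Act K S) : Prop :=
  (∀ a, IsHom S S (κ a) ∧ V.Resp (κ a)) ∧ ∀ τ p,
    ∑ j, Module.finrank ℂ ((eigenpart κ τ).map (V.gr j) ⊓ (T j).hodge p : Submodule ℂ (T j).W) =
      Module.finrank ℂ (eigenpart κ τ ⊓ S.hodge p : Submodule ℂ S.W)

/-- All actions of imaginary cyclic subfields `K` of `F` on factors of `S` through the centre of
the endomorphisms are flat, after restriction to some factor which is not zero, in families over
curves with a limit whose graded pieces are polarised and lie in the class `C`. -/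
def FlatL (C : Str → Prop) (S : Str) {F : Type} [Field F] (e : F →+* ℂ) : Prop :=
  ∀ (K : Type) [Field K] [NumberField K] (i : K →+* F), (∃ x, (e (i x)).im ≠ 0) →
    IsGalois ℚ K → IsCyclic (K ≃ₐ[ℚ] K) → ∀ κ : Act K S, CentralAction κ →
      ∃ φ : Act K S, IsRestriction κ φ ∧ ∃ (k : ℕ) (T : Fin k → Str), (∀ j, Nonempty (Pol (T j)) ∧ C (T j)) ∧
        ∃ V : LimFam S T, V.Flat φ

/-- The structure `R` is reached from the class `C₀`: it lies in every class `C` of structures which
contains `C₀` and the polarised structures of gamma type, which is closed under tensor products,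
direct sums and quotients, and which contains every polarised structure `S` such that the actions
of imaginary cyclic subfields of `F` through the centre of the endomorphisms of `S` are flat in
families over curves with a limit in the class `C`. -/
def ReachedL (C₀ : Str → Prop) {F : Type} [Field F] (e : F →+* ℂ) (R : Str) : Prop :=
  ∀ C : Str → Prop, (∀ S, C₀ S → C S) → (∀ S, Nonempty (Pol S) → GammaType S → C S) →
    (∀ S, Gen C S → C S) → (∀ S, Nonempty (Pol S) → FlatL C S e → C S) → C R

end GD
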