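import Pool.Agent.H26.LM.Per

/-!
# Flat vectors are algebraic
-/

noncomputable section

namespace GD

open Complex Module NumberField Topology

variable {B : Curve} {S : Str} (H : Variation B S) (b : Basis (Fin H.n) ℂ S.W)

/-- The coordinates of a vector in the frame, multiplied by the square of the determinant. -/
def Variation.vcm (w : S.W) (k : Fin H.n) (z : ℂ) : ℂ :=
  H.wr b z * ((H.mat b z).updateRow k fun l => b.coord l w).det

variable (w : S.W)

theorem Variation.vcm_mem (k : Fin H.n) : H.vcm b w k ∈ B.periodRing H.ω := by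
  refine mul_mem (H.wr_mem b) ?_
  refine det_mem_subring (R := (B.periodRing H.ω).toSubring)
    (Y := fun z => (H.mat b z).updateRow k fun l => b.coord l w) fun i l => ?_
  by_cases hi : i = k
  · subst hi
    have h1 : (fun z => ((H.mat b z).updateRow i fun l => b.coord l w) i l) =
        algebraMap ℂ (ℂ → ℂ) (b.coord l w) := by
      funext z
      rw [Matrix.updateRow_self]
      rfl
    rw [h1]
    exact Subalgebra.algebraMap_mem _ _
  · have h1 : (fun z => ((H.mat b z).updateRow k fun l => b.coord l w) i l) =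
        fun z => b.coord l (H.ω i z) := by
      funext z
      rw [Matrix.updateRow_ne hi]
      rfl
    rw [h1]
    exact H.coord_mem _ i

/-- Cramer's rule. -/
theorem Variation.vcm_eq {z : ℂ} {h : Fin H.n → ℂ} (hh : w = ∑ k, h k • H.ω k z)
    (k : Fin H.n) : H.vcm b w k z = H.wr b z ^ 2 * h k := by
  have h1 : (fun l => b.coord l w) = ∑ k, h k • H.mat b z k := by
    funext l
    rw [hh, map_sum, Finset.sum_apply]
    refine Finset.sum_congr rfl fun k _ => ?_
    rw [map_smul]
    rfl
  rw [Variation.vcm, h1, Matrix.det_updateRow_sum, ← H.wr_eq b, smul_eq_mul]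
  ring

theorem Variation.vcm_sum {z : ℂ} (hz : z ∈ B.U) :
    H.wr b z ^ 2 • w = ∑ k, H.vcm b w k z • H.ω k z := by
  obtain ⟨h, hh⟩ := H.exists_coeff hz w
  simp only [H.vcm_eq b w hh]
  conv_lhs => rw [hh]
  rw [Finset.smul_sum]
  exact Finset.sum_congr rfl fun k _ => smul_smul _ _ _

theorem Variation.vcm_deck (hw : ∀ g ∈ H.deck, g.act w = w)
    {g : Deck S} (hg : g ∈ H.deck) {z : ℂ} (hz : z ∈ B.U)
    (k : Fin H.n) : H.vcm b w k (g.move z) = H.vcm b w k z := by
  obtain ⟨h, hh⟩ := H.exists_coeff hz w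
  have h1 : w = ∑ k, h k • H.ω k (g.move z) := by
    conv_lhs => rw [← hw g hg, hh, map_sum]
    refine Finset.sum_congr rfl fun k _ => ?_
    rw [map_smul, H.monodromy g hg z hz]
  rw [H.vcm_eq b w hh, H.vcm_eq b w h1, H.wr_deck b hg hz]

/-- The system for the coordinates of a vector. -/
theorem Variation.vcm_deriv {P : Fin H.n → Fin H.n → ℂ → ℂ}
    (hP : ∀ i (f : S.W →ₗ[ℂ] ℂ), ∀ z ∈ B.U,
      HasDerivAt (fun y => f (H.ω i y)) (deriv B.x z * ∑ j, P i j z * f (H.ω j z)) z)
    {z : ℂ} (hz : z ∈ B.U) (k : Fin H.n) :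
    HasDerivAt (H.vcm b w k) (deriv B.x z * (2 * (∑ i, P i i z) * H.vcm b w k z -
      ∑ l, P l k z * H.vcm b w l z)) z := by
  have hd : ∀ k, HasDerivAt (H.vcm b w k) (deriv (H.vcm b w k) z) z := fun k =>
    ((H.differentiableOn (H.vcm_mem b w k)).differentiableAt
      (B.isOpen.mem_nhds hz)).hasDerivAt
  let c : Fin H.n → ℂ := fun k => deriv B.x z * (2 * (∑ i, P i i z) * H.vcm b w k z -
      ∑ l, P l k z * H.vcm b w l z)
  have key : (fun k => deriv (H.vcm b w k) z) = c := by
    refine coeff_unique (H.indep z hz) ?_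
    refine (Module.forall_dual_apply_eq_zero_iff ℂ _).1 ?_ |> sub_eq_zero.1
    intro f
    have h1 : HasDerivAt (fun y => H.wr b y ^ 2 * f w)
        (deriv B.x z * (2 * (∑ i, P i i z) * H.wr b z ^ 2) * f w) z :=
      (H.wr_deriv b hP hz).mul_const (f w)
    have h2 : HasDerivAt (fun y => ∑ k, H.vcm b w k y * f (H.ω k y))
        (∑ k, (deriv (H.vcm b w k) z * f (H.ω k z) +
          H.vcm b w k z * (deriv B.x z * ∑ l, P k l z * f (H.ω l z)))) z :=
      HasDerivAt.fun_sum fun k _ => (hd k).fun_mul (hP k f z hz)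
    have hsum : ∀ y ∈ B.U,
        H.wr b y ^ 2 * f w = ∑ k, H.vcm b w k y * f (H.ω k y) := by
      intro y hy
      have h3 := congrArg f (H.vcm_sum b w hy)
      rw [map_smul, smul_eq_mul, map_sum] at h3
      rw [h3]
      exact Finset.sum_congr rfl fun k _ => by rw [map_smul, smul_eq_mul]
    have h3 : (fun y => H.wr b y ^ 2 * f w) =ᶠ[𝓝 z]
        fun y => ∑ k, H.vcm b w k y * f (H.ω k y) := by
      filter_upwards [B.isOpen.mem_nhds hz] with y hy
      exact hsum y hy
    have h4 := (h2.congr_of_eventuallyEq h3).unique h1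
    rw [map_sub, map_sum, map_sum, sub_eq_zero]
    simp only [map_smul, smul_eq_mul]
    rw [Finset.sum_add_distrib] at h4
    have h5 : deriv B.x z * (2 * (∑ i, P i i z) * H.wr b z ^ 2) * f w =
        ∑ k, deriv B.x z * (2 * (∑ i, P i i z) * H.vcm b w k z) * f (H.ω k z) := by
      calc _ = deriv B.x z * (2 * (∑ i, P i i z)) * (H.wr b z ^ 2 * f w) := by ring
        _ = _ := by
          rw [hsum z hz, Finset.mul_sum]
          exact Finset.sum_congr rfl fun k _ => by ring
    have h7 : ∑ k, H.vcm b w k z * (deriv B.x z * ∑ l, P k l z * f (H.ω l z)) =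
        ∑ k, deriv B.x z * (∑ l, P l k z * H.vcm b w l z) * f (H.ω k z) := by
      calc _ = ∑ k, ∑ l, deriv B.x z * (P k l z * H.vcm b w k z) * f (H.ω l z) := by
            refine Finset.sum_congr rfl fun k _ => ?_
            rw [Finset.mul_sum, Finset.mul_sum]
            exact Finset.sum_congr rfl fun l _ => by ring
        _ = _ := by
            rw [Finset.sum_comm]
            refine Finset.sum_congr rfl fun k _ => ?_
            rw [Finset.mul_sum, Finset.sum_mul]
    rw [h5, h7] at h4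
    have h8 : ∑ k, c k * f (H.ω k z) =
        ∑ k, deriv B.x z * (2 * (∑ i, P i i z) * H.vcm b w k z) * f (H.ω k z) -
        ∑ k, deriv B.x z * (∑ l, P l k z * H.vcm b w l z) * f (H.ω k z) := by
      rw [← Finset.sum_sub_distrib]
      exact Finset.sum_congr rfl fun k _ => by simp only [c]; ring
    rw [h8, ← h4]
    ring
  exact (hd k).congr_deriv (congrFun key k)

/-- A de Rham vector of the fibre at `s` which is invariant under the monodromy is algebraic. -/
theorem Variation.exists_vec {s : ℂ} (hs : s ∈ B.U) (hxs : B.x s ∈ Qbar)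
    (hD : S.D = Submodule.span Qbar (Set.range fun i => H.ω i s)) (hwD : w ∈ S.D)
    (hw : ∀ g ∈ H.deck, g.act w = w) :
    ∃ (b : Basis (Fin H.n) ℂ S.W) (a : ℂ → ℂ) (N : Fin H.n → ℂ → ℂ), a ∈ B.A ∧
      (∀ k, N k ∈ B.A) ∧ (∀ z ∈ B.U, H.wr b z ^ 2 = a z) ∧
      ∀ z ∈ B.U, H.wr b z ^ 2 • w = ∑ k, N k z • H.ω k z := by
  classical
  let b : Basis (Fin H.n) ℂ S.W := Basis.mk (H.indep s hs) (H.span s hs).ge
  have hb : ∀ i, b i = H.ω i s := fun i => Basis.mk_apply _ _ i
  have hwr : H.wr b s = 1 := by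
    have h1 : (fun i => H.ω i s) = b := funext fun i => (hb i).symm
    rw [Variation.wr, h1, Basis.det_self]
  obtain ⟨P, hPA, hP⟩ := H.exists_conn
  obtain ⟨a, ha, haz⟩ := H.exists_wr b hs hxs hwr
  have hreg : ∀ k : Fin H.n, B.RegC (H.vcm b w k) := fun k =>
    H.regular _ (H.vcm_mem b w k) fun g hg z hz => H.vcm_deck b w hw hg hz _
  let tr : ℂ → ℂ := (2 : ℕ) • ∑ i, P i i
  have htr : tr ∈ B.A := nsmul_mem (Subalgebra.sum_mem _ fun i _ => hPA i i) 2
  have htrz : ∀ z, tr z = 2 * ∑ i, P i i z := by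
    intro z
    change ((2 : ℕ) • ∑ i, P i i) z = _
    rw [Pi.smul_apply, Finset.sum_apply, nsmul_eq_mul]
    norm_num
  rw [hD] at hwD
  obtain ⟨q, hq⟩ := (Submodule.mem_span_range_iff_exists_fun Qbar).1 hwD
  have hq' : w = ∑ k, (q k : ℂ) • H.ω k s := hq.symm
  obtain ⟨N, hN, hNz⟩ := B.descent (ι := Fin H.n) hs hxs
    (y := fun k => H.vcm b w k) hreg
    (M := fun k l => (if l = k then tr else 0) - P l k)
    (fun k l => by
      refine sub_mem ?_ (hPA _ _)
      split_ifs
      · exact htr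
      · exact zero_mem _)
    (fun k z hz => by
      refine (H.vcm_deriv b w hP hz k).congr_deriv ?_
      congr 1
      simp only [Pi.sub_apply, sub_mul, Finset.sum_sub_distrib]
      have e1 : ∑ l, (if l = k then tr else 0) z * H.vcm b w l z =
          2 * (∑ i, P i i z) * H.vcm b w k z := by
        rw [Finset.sum_eq_single k]
        · rw [if_pos rfl, htrz]
        · intro l _ hl
          rw [if_neg hl]
          simp
        · simp
      rw [e1])
    (fun k => by
      rw [H.vcm_eq b w hq', hwr, one_pow, one_mul]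
      exact (q k).2)
  refine ⟨b, a, fun k => N k, ha, hN, haz, fun z hz => ?_⟩
  rw [H.vcm_sum b w hz]
  exact Finset.sum_congr rfl fun k _ => by rw [hNz k z hz]

theorem det_unip_end {W : Type} [AddCommGroup W] [Module ℂ W] {n : ℕ}
    (b : Basis (Fin n) ℂ W) {G : Module.End ℂ W} (h : IsNilpotent (G - 1)) :
    LinearMap.det G = 1 := by
  rw [← LinearMap.det_toMatrix b]
  obtain ⟨p, hp⟩ := h
  refine det_unip ⟨p, ?_⟩
  have h1 : LinearMap.toMatrixAlgEquiv b (G - 1) = LinearMap.toMatrix b b G - 1 := by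
    rw [map_sub, map_one]
    rfl
  rw [← h1, ← map_pow, hp, map_zero]

variable {S : Str} {k : ℕ} {T : Fin k → Str} (V : LimFam S T)

/-- A de Rham vector of the fibre which is invariant under the monodromy and the twist is a de Rham
vector of the limit. -/
theorem LimFam.flat_vec {w : S.W} (hwD : w ∈ S.D) (hw : ∀ g ∈ V.H.deck, g.act w = w)
    (hu : ∀ z, V.u z w = w) : w ∈ Submodule.span Qbar (Set.range V.ω) := by
  classical
  have hNe : V.l.NeBot := V.l_U.2
  obtain ⟨b, a, N, ha, hN, haz, hNz⟩ := V.H.exists_vec w V.hs.1 V.hs.2 V.dR_s hwD hw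
  set A : ℂ → Matrix (Fin V.H.n) (Fin V.H.n) ℂ := fun z =>
    Matrix.of fun i l => b.coord l (V.u z (V.H.ω i z)) with hA
  set A₀ : Matrix (Fin V.H.n) (Fin V.H.n) ℂ := Matrix.of fun i l => b.coord l (V.ω i) with hA₀
  let c : Fin V.H.n → ℂ := fun l => b.coord l w
  have hAl : Filter.Tendsto A V.l (𝓝 A₀) :=
    tendsto_pi_nhds.2 fun i => tendsto_pi_nhds.2 fun l => V.lim (b.coord l) i
  have hdet : ∀ z, (A z).det = V.H.wr b z := by
    intro z
    have h1 : (A z).det = b.det fun i => V.u z (V.H.ω i z) := by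
      rw [Basis.det_apply, ← Matrix.det_transpose]
      rfl
    have h2 : (b.det fun i => V.u z (V.H.ω i z)) = LinearMap.det (V.u z) * V.H.wr b z := by
      rw [Variation.wr, ← Basis.det_comp]
      rfl
    rw [h1, h2, det_unip_end b (V.unip z), one_mul]
  have hdet0 : A₀.det ≠ 0 := by
    have h1 : A₀.det = b.det V.ω := by
      rw [Basis.det_apply, ← Matrix.det_transpose]
      rfl
    rw [h1]
    exact ((b.is_basis_iff_det (v := V.ω)).1 V.basis).ne_zero
  have hmul : ∀ z ∈ V.B.U, Matrix.vecMul (fun k => N k z) (A z) = (A z).det ^ 2 • c := by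
    intro z hz
    funext l
    have h1 := congrArg (fun x => b.coord l (V.u z x)) (hNz z hz)
    simp only [map_smul, map_sum, hu] at h1
    rw [hdet]
    change ∑ k, N k z * b.coord l (V.u z (V.H.ω k z)) = V.H.wr b z ^ 2 * b.coord l w
    simp only [smul_eq_mul] at h1
    exact h1.symm
  have hNA : ∀ z ∈ V.B.U, (fun k => N k z) = (A z).det • Matrix.vecMul c (A z).adjugate := by
    intro z hz
    have h0 : (A z).det ≠ 0 := by
      rw [hdet]
      exact V.H.wr_ne b hz
    have h1 := congrArg (fun x => Matrix.vecMul x (A z).adjugate) (hmul z hz)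
    simp only [Matrix.vecMul_vecMul, Matrix.mul_adjugate, Matrix.vecMul_smul,
      Matrix.smul_vecMul, Matrix.vecMul_one] at h1
    have h2 : (A z).det • (fun k => N k z) =
        (A z).det • ((A z).det • Matrix.vecMul c (A z).adjugate) := by
      rw [h1, smul_smul, pow_two]
    exact smul_right_injective _ h0 h2
  let N₀ : Fin V.H.n → ℂ := A₀.det • Matrix.vecMul c A₀.adjugate
  have hNl : Filter.Tendsto (fun z k => N k z) V.l (𝓝 N₀) := by
    have h1 : Continuous fun X : Matrix (Fin V.H.n) (Fin V.H.n) ℂ =>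
        X.det • Matrix.vecMul c X.adjugate := by
      exact continuous_id.matrix_det.smul (continuous_const.matrix_vecMul
        continuous_id.matrix_adjugate)
    refine ((h1.tendsto A₀).comp hAl).congr' ?_
    filter_upwards [V.l_U.1] with z hz
    exact (hNA z hz).symm
  have hal : Filter.Tendsto a V.l (𝓝 (A₀.det ^ 2)) := by
    have h1 : Continuous fun X : Matrix (Fin V.H.n) (Fin V.H.n) ℂ => X.det ^ 2 :=
      continuous_id.matrix_det.pow 2
    refine ((h1.tendsto A₀).comp hAl).congr' ?_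
    filter_upwards [V.l_U.1] with z hz
    rw [← haz z hz, ← hdet]
    rfl
  have ha₀ : A₀.det ^ 2 ∈ Qbar := V.l_val a ha _ hal
  have hN₀ : ∀ k, N₀ k ∈ Qbar := fun k => V.l_val _ (hN k) _ ((tendsto_pi_nhds.1 hNl) k)
  have hw0 : w = ∑ k, (N₀ k / A₀.det ^ 2) • V.ω k := by
    have h1 : Matrix.vecMul N₀ A₀ = A₀.det ^ 2 • c := by
      change Matrix.vecMul (A₀.det • Matrix.vecMul c A₀.adjugate) A₀ = _
      rw [Matrix.smul_vecMul, Matrix.vecMul_vecMul, Matrix.adjugate_mul, Matrix.vecMul_smul,
        Matrix.vecMul_one, smul_smul, pow_two]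
    refine b.ext_elem fun l => ?_
    have h2 := congrFun h1 l
    change ∑ k, N₀ k * b.coord l (V.ω k) = A₀.det ^ 2 * b.coord l w at h2
    change b.coord l w = b.coord l _
    rw [map_sum]
    simp only [map_smul, smul_eq_mul, div_mul_eq_mul_div]
    rw [← Finset.sum_div, h2, mul_div_cancel_left₀ _ (pow_ne_zero 2 hdet0)]
  rw [hw0]
  refine Submodule.sum_mem _ fun k _ => ?_
  exact Submodule.smul_mem _ (⟨_, div_mem (hN₀ k) ha₀⟩ : Qbar)
    (Submodule.subset_span (Set.mem_range_self k))

end GD
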