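import Pool.Agent.H26.LM.Fix
import Pool.Agent.H44.GD.Sub2
import Pool.Agent.H44.GD.LegD
import Pool.Agent.H44.GD.Conn2
import Pool.Agent.H26.FM.Cen

/-!
# Substructures of polarised structures are generated
-/

noncomputable section

namespace GD

open Complex Module

/-- The projections to the Hodge pieces commute with morphisms. -/
theorem hpr_nat {R R' : Str} {f : R.W →ₗ[ℂ] R'.W} (hf : IsHom R R' f) (p : ℕ) (x : R.W) :
    hpr R' p (f x) = f (hpr R p x) := by
  obtain ⟨u, -, hu2, hxu⟩ := hodge_comp (top_hodge R) (Submodule.mem_top (x := x))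
  have h1 : f x = ∑ q ∈ Finset.range (R'.wt + 1), f (u q) := by
    rw [hxu, map_sum, hf.wt]
  rw [h1, hpr_sum fun q => hf.hodge q _ (hu2 q), hxu, hpr_sum hu2, hf.wt]
  split_ifs
  · rfl
  · rw [map_zero]

/-- An injective morphism is strict. -/
theorem strict_of_inj {E T : Str} {f : E.W →ₗ[ℂ] T.W} (hf : IsHom E T f)
    (hi : Function.Injective f) (x : E.W) :
    (f x ∈ T.B → x ∈ E.B) ∧ (f x ∈ T.D → x ∈ E.D) ∧ ∀ p, f x ∈ T.hodge p → x ∈ E.hodge p := by
  refine ⟨fun h => ?_, fun h => ?_, fun p h => ?_⟩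
  · have hM := isSub_img hf (isSub_top (S := E))
    have h1 : f x ∈ T.cx (imgQ f E.B) := by
      rw [cx_imgQ, Str.cx_B]
      exact ⟨x, Submodule.mem_top, rfl⟩
    obtain ⟨y, hy, hxy⟩ := mem_of_cx hM.le h1 h
    rwa [← hi hxy]
  · apply E.mem_D_of_nabD
    intro δ
    apply hi
    rw [← nabD_nat δ f hf.deRham, T.nabD_D δ h, map_zero]
  · have h1 : x = hpr E p x := by
      apply hi
      rw [← hpr_nat hf, hpr_of_mem h]
    rw [h1]
    exact hpr_mem p x

/-- A structure with an injective morphism to a polarised structure is a quotient. -/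
theorem exists_retract {E T : Str} (P : Pol T) {f : E.W →ₗ[ℂ] T.W} (hf : IsHom E T f)
    (hi : Function.Injective f) :
    ∃ g : T.W →ₗ[ℂ] E.W, IsHom T E g ∧ LinearMap.range g = ⊤ := by
  have hM := isSub_img hf (isSub_top (S := E))
  have hcx : T.cx (imgQ f E.B) = LinearMap.range f := by
    rw [cx_imgQ, Str.cx_B, Submodule.map_top]
  obtain ⟨p, hp, hp1, hp2⟩ := exists_proj P hM
  rw [hcx] at hp1 hp2
  let e : E.W ≃ₗ[ℂ] LinearMap.range f := LinearEquiv.ofInjective f hi
  let g : T.W →ₗ[ℂ] E.W := e.symm.toLinearMap.comp (p.codRestrict _ hp2)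
  have hg : ∀ w, f (g w) = p w := by
    intro w
    have h1 := congrArg (fun y : LinearMap.range f => (y : T.W))
      (e.apply_symm_apply (p.codRestrict _ hp2 w))
    exact h1
  refine ⟨g, ⟨hf.wt.symm, fun x hx => ?_, fun x hx => ?_, fun q x hx => ?_⟩, ?_⟩
  · exact (strict_of_inj hf hi _).1 (by
      rw [hg]
      exact hp.betti x hx)
  · exact (strict_of_inj hf hi _).2.1 (by
      rw [hg]
      exact hp.deRham x hx)
  · exact (strict_of_inj hf hi _).2.2 q (by
      rw [hg]
      exact hp.hodge q x hx)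
  · rw [LinearMap.range_eq_top]
    intro x
    refine ⟨f x, hi ?_⟩
    rw [hg]
    exact hp1 _ ⟨x, rfl⟩

/-- A structure with an injective morphism to a polarised structure which is generated is
generated. -/
theorem gen_of_inj {C : Str → Prop} {E T : Str} (P : Pol T) (hT : Gen C T)
    {f : E.W →ₗ[ℂ] T.W} (hf : IsHom E T f) (hi : Function.Injective f) : Gen C E := by
  obtain ⟨g, hg, hr⟩ := exists_retract P hf hi
  refine Gen.lin E 1 (fun _ => T) (fun _ => g) (fun _ => hT) (fun _ => hg) ?_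
  rw [ciSup_const, hr]

end GD
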