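import Pool.Agent.H26.LM.Per
import Pool.Agent.H27.GD.Transp

/-!
# The action on the graded pieces of the limit
-/

noncomputable section

namespace GD

open Complex NumberField Module

variable {S : Str} {k : ℕ} {T : Fin k → Str} (V : LimFam S T)

/-- The parts of a subspace in the Hodge pieces have at most the dimension of the subspace. -/
theorem finrank_parts_le {R : Str} (U : Submodule ℂ R.W) {n : ℕ} (hn : R.wt ≤ n) :
    ∑ p ∈ Finset.range (n + 1), finrank ℂ (U ⊓ R.hodge p : Submodule ℂ R.W) ≤ finrank ℂ U := by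
  set G : Submodule ℂ R.W := ⨆ p, U ⊓ R.hodge p with hG
  have hGU : G ≤ U := iSup_le fun p => inf_le_left
  have h1 : ∀ p, G ⊓ R.hodge p = U ⊓ R.hodge p := by
    intro p
    apply le_antisymm
    · exact inf_le_inf_right _ hGU
    · exact le_inf (le_iSup (fun p => U ⊓ R.hodge p) p) inf_le_right
  have h2 : G ≤ ⨆ p, G ⊓ R.hodge p := by
    have h3 : (⨆ p, G ⊓ R.hodge p) = ⨆ p, U ⊓ R.hodge p := iSup_congr h1
    rw [h3]
  have h4 : ∑ p ∈ Finset.range (n + 1), finrank ℂ (G ⊓ R.hodge p : Submodule ℂ R.W) =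
      ∑ p ∈ Finset.range (n + 1), finrank ℂ (U ⊓ R.hodge p : Submodule ℂ R.W) :=
    Finset.sum_congr rfl fun p _ => by rw [h1]
  rw [← h4, finrank_graded h2 hn]
  exact Submodule.finrank_mono hGU

/-- The sum which defines the type may be extended. -/
theorem type_extend (R : Str) (L : Submodule ℂ R.W) {n : ℕ} (hn : R.wt ≤ n) :
    ∑ p ∈ Finset.range (R.wt + 1), p * finrank ℂ (L ⊓ R.hodge p : Submodule ℂ R.W) =
      ∑ p ∈ Finset.range (n + 1), p * finrank ℂ (L ⊓ R.hodge p : Submodule ℂ R.W) := by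
  apply Finset.sum_subset
  · intro p hp
    rw [Finset.mem_range] at hp ⊢
    omega
  · intro p _ hp
    rw [Finset.mem_range] at hp
    rw [R.hodge_large p (by omega), inf_bot_eq, finrank_bot, mul_zero]

/-- The operators on the graded pieces. -/
theorem LimFam.exists_op_gr {K : Type} [Field K] (φ : K →ₙ+* Module.End ℂ S.W)
    (hφ : ∀ a, IsHom S S (φ a)) (hr : ∀ a, V.Resp (φ a)) :
    ∃ ψ : ∀ j, K →ₙ+* Module.End ℂ (T j).W, (∀ j a w, V.gr j (φ a w) = ψ j a (V.gr j w)) ∧
      (∀ j a, ∀ y ∈ (T j).B, ψ j a y ∈ (T j).B) ∧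
      ∀ j τ, eigenpart (ψ j) τ = (eigenpart φ τ).map (V.gr j) := by
  obtain ⟨σ, hσ, hσ0, hσs⟩ := V.exists_sec
  have hinj : ∀ w w', (∀ j, V.gr j w = V.gr j w') → w = w' := by
    intro w w' h
    rw [hσs w, hσs w']
    exact Finset.sum_congr rfl fun j _ => by rw [h j]
  have hint : ∀ j a w, V.gr j (φ a w) = V.gr j (φ a (σ j (V.gr j w))) := by
    intro j a w
    have h1 : V.gr j (φ a (w - σ j (V.gr j w))) = 0 :=
      (hr a _).2.2 j (by rw [map_sub, hσ, sub_self])
    rw [map_sub, map_sub, sub_eq_zero] at h1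
    exact h1
  have hσB : ∀ j, ∀ y ∈ (T j).B, σ j y ∈ S.B := by
    intro j y hy
    rw [V.gr_B]
    intro j'
    by_cases hj : j' = j
    · subst hj
      rwa [hσ]
    · rw [hσ0 j j' y hj]
      exact zero_mem _
  let ψ : ∀ j, K →ₙ+* Module.End ℂ (T j).W := fun j =>
    { toFun := fun a => (V.gr j).comp ((φ a).comp (σ j))
      map_mul' := by
        intro a b
        ext y
        change V.gr j (φ (a * b) (σ j y)) = V.gr j (φ a (σ j (V.gr j (φ b (σ j y)))))
        rw [← hint, map_mul]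
        rfl
      map_zero' := by
        ext y
        change V.gr j (φ 0 (σ j y)) = 0
        rw [map_zero, LinearMap.zero_apply, map_zero]
      map_add' := by
        intro a b
        ext y
        change V.gr j (φ (a + b) (σ j y)) = V.gr j (φ a (σ j y)) + V.gr j (φ b (σ j y))
        rw [map_add, LinearMap.add_apply, map_add] }
  have hψ : ∀ j a y, ψ j a y = V.gr j (φ a (σ j y)) := fun j a y => rfl
  have hφψ : ∀ j a w, V.gr j (φ a w) = ψ j a (V.gr j w) := fun j a w => hint j a w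
  refine ⟨ψ, hφψ, ?_, ?_⟩
  · intro j a y hy
    rw [hψ]
    exact (V.gr_B _).1 ((hφ a).betti _ (hσB j y hy)) j
  · intro j τ
    ext y
    rw [mem_eigenpart, Submodule.mem_map]
    constructor
    · intro hy
      refine ⟨σ j y, ?_, hσ j y⟩
      rw [mem_eigenpart]
      intro a
      apply hinj
      intro j'
      rw [hφψ, map_smul]
      by_cases hj : j' = j
      · subst hj
        rw [hσ, hy]
      · rw [hσ0 j j' y hj, map_zero, smul_zero]
    · rintro ⟨w, hw, rfl⟩ a
      rw [mem_eigenpart] at hw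
      rw [← hφψ, hw, map_smul]

/-- The dimension of the eigenparts of the graded pieces. -/
theorem LimFam.finrank_gr {E : Submodule ℂ S.W}
    (hE : ∀ σ : ∀ j, (T j).W →ₗ[ℂ] S.W, (∀ j y, V.gr j (σ j y) = y) →
      (∀ j j' y, j' ≠ j → V.gr j' (σ j y) = 0) → ∀ j, ∀ w ∈ E, σ j (V.gr j w) ∈ E) :
    ∑ j, finrank ℂ (E.map (V.gr j) : Submodule ℂ (T j).W) = finrank ℂ E := by
  obtain ⟨σ, hσ, hσ0, hσs⟩ := V.exists_sec
  have hE' := hE σ hσ hσ0
  let f : E →ₗ[ℂ] ∀ j, (E.map (V.gr j) : Submodule ℂ (T j).W) :=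
    LinearMap.pi fun j => (V.gr j).restrict fun w hw => ⟨w, hw, rfl⟩
  have hf : ∀ (w : E) j, (f w j : (T j).W) = V.gr j w := fun w j => rfl
  have hb : Function.Bijective f := by
    constructor
    · intro w w' h
      apply Subtype.ext
      rw [hσs w, hσs w']
      refine Finset.sum_congr rfl fun j _ => ?_
      rw [← hf, ← hf, h]
    · intro y
      have hy : ∀ j, σ j (y j) ∈ E := by
        intro j
        obtain ⟨w, hw, h⟩ := (y j).2
        rw [← h]
        exact hE' j w hw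
      refine ⟨⟨∑ j, σ j (y j), Submodule.sum_mem _ fun j _ => hy j⟩, ?_⟩
      funext j
      apply Subtype.ext
      rw [hf]
      change V.gr j (∑ j, σ j (y j)) = _
      rw [map_sum, Finset.sum_eq_single j]
      · exact hσ j _
      · intro j' _ hj'
        exact hσ0 j' j _ (Ne.symm hj')
      · simp
  rw [← Module.finrank_pi_fintype ℂ]
  exact (LinearEquiv.ofBijective f hb).finrank_eq.symm

/-- The action on the graded pieces of the limit. -/
theorem LimFam.exists_gr {K : Type} [Field K] [NumberField K] (φ : K →ₙ+* Module.End ℂ S.W)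
    (hV : V.Flat φ) :
    ∃ (ψ : ∀ j, K →ₙ+* Module.End ℂ (T j).W) (N : ∀ j, Submodule ℚ (T j).W)
      (κ : ∀ j, K →+* Module.End ℂ ((T j).cx (N j))),
      (∀ j a w, V.gr j (φ a w) = ψ j a (V.gr j w)) ∧
      (∀ j τ, eigenpart (ψ j) τ = (eigenpart φ τ).map (V.gr j)) ∧
      (∀ j, IsSub (T j) (N j)) ∧ (∀ j a, IsEnd (T j) (N j) (κ j a)) ∧
      (∀ j τ z, IsFactorPeriod (ψ j) τ z → IsDetPeriod (κ j) τ z) ∧
      ∀ τ, factorType φ τ = ∑ j, detType (κ j) τ := by
  have hφ : ∀ a, IsHom S S (φ a) := fun a => (hV.1 a).1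
  have hr : ∀ a, V.Resp (φ a) := fun a => (hV.1 a).2
  obtain ⟨ψ, hψ, hψB, heig⟩ := V.exists_op_gr φ hφ hr
  have hmul : ∀ j a b y, ψ j a (ψ j b y) = ψ j (a * b) y := by
    intro j a b y
    rw [map_mul]
    rfl
  let N : ∀ j, Submodule ℚ (T j).W := fun j => imgQ (ψ j 1) (T j).B
  have hcx : ∀ j, (T j).cx (N j) = LinearMap.range (ψ j 1) := by
    intro j
    rw [cx_imgQ, Str.cx_B, Submodule.map_top]
  have hid : ∀ j, ∀ w ∈ (T j).cx (N j), ψ j 1 w = w := by
    intro j w hw
    rw [hcx] at hw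
    obtain ⟨u, rfl⟩ := hw
    rw [hmul, one_mul]
  have hmem : ∀ j a w, ψ j a w ∈ (T j).cx (N j) := by
    intro j a w
    rw [hcx]
    exact ⟨ψ j a w, by rw [hmul, one_mul]⟩
  let κ : ∀ j, K →+* Module.End ℂ ((T j).cx (N j)) := fun j =>
    { toFun := fun a => (ψ j a).restrict fun x _ => hmem j a x
      map_one' := by
        ext x
        exact hid j x x.2
      map_mul' := by
        intro a b
        ext x
        exact (hmul j a b x).symm
      map_zero' := by
        ext x
        change ψ j 0 x = 0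
        rw [map_zero, LinearMap.zero_apply]
      map_add' := by
        intro a b
        ext x
        change ψ j (a + b) x = ψ j a x + ψ j b x
        rw [map_add, LinearMap.add_apply] }
  have hκ : ∀ j a (x : (T j).cx (N j)), (κ j a x : (T j).W) = ψ j a x := fun _ _ _ => rfl
  have hNle : ∀ j, N j ≤ (T j).B := by
    rintro j _ ⟨x, hx, rfl⟩
    exact hψB j 1 x hx
  have hNN : ∀ j x, x ∈ (T j).B → ψ j 1 x = x → x ∈ N j := fun j x hx h => ⟨x, hx, h⟩
  have heig' : ∀ j τ, eig (κ j) τ = eigenpart (ψ j) τ := by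
    intro j τ
    ext x
    rw [mem_eigenpart, DT.mem_eig]
    constructor
    · rintro ⟨h, hx⟩ a
      have h2 := congrArg (fun z : (T j).cx (N j) => (z : (T j).W)) (hx a)
      exact h2
    · intro hx
      have h2 : x ∈ (T j).cx (N j) := by
        have h3 := hx 1
        rw [map_one τ, one_smul] at h3
        rw [← h3]
        exact hmem j 1 x
      refine ⟨h2, fun a => ?_⟩
      apply Subtype.ext
      exact hx a
  -- the eigenspaces are spanned by vectors in the Hodge pieces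
  obtain ⟨n, hnS, hnT⟩ : ∃ n, S.wt ≤ n ∧ ∀ j, (T j).wt ≤ n := by
    refine ⟨S.wt + ∑ j, (T j).wt, by omega, fun j => ?_⟩
    have h1 := Finset.single_le_sum (f := fun j => (T j).wt) (fun _ _ => Nat.zero_le _)
      (Finset.mem_univ j)
    omega
  have hstab : ∀ τ, ∀ σ : ∀ j, (T j).W →ₗ[ℂ] S.W, (∀ j y, V.gr j (σ j y) = y) →
      (∀ j j' y, j' ≠ j → V.gr j' (σ j y) = 0) → ∀ j, ∀ w ∈ eigenpart φ τ,
        σ j (V.gr j w) ∈ eigenpart φ τ := by
    intro τ σ hσ hσ0 j w hw
    rw [mem_eigenpart] at hw ⊢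
    intro a
    obtain ⟨x, -, hx⟩ := V.gr_bij fun j' => V.gr j' (τ a • σ j (V.gr j w))
    rw [hx (τ a • σ j (V.gr j w)) fun _ => rfl, hx (φ a (σ j (V.gr j w))) fun j' => ?_]
    rw [hψ, map_smul]
    by_cases hj : j' = j
    · subst hj
      rw [hσ, ← hψ, hw, map_smul]
    · rw [hσ0 j j' _ hj, map_zero, smul_zero]
  have hS : ∀ τ, eigenpart φ τ ≤ ⨆ p, eigenpart φ τ ⊓ S.hodge p := by
    intro τ
    by_cases h1 : φ 1 = 0
    · intro w hw
      rw [mem_eigenpart] at hw
      have h3 := hw 1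
      rw [h1, map_one, one_smul, LinearMap.zero_apply] at h3
      rw [← h3]
      exact zero_mem _
    · obtain ⟨M, ι, hM, -, hι, he, -, -, -⟩ := exists_sub φ hφ h1
      rw [← he τ]
      exact eig_hodge ι hM hι τ
  have hgr : ∀ j τ, eig (κ j) τ ≤ ⨆ p, eig (κ j) τ ⊓ (T j).hodge p := by
    intro j τ
    apply graded_of_finrank (hnT j)
    rw [heig', heig]
    have h1 : ∀ j, ∑ p ∈ Finset.range (n + 1), finrank ℂ
        ((eigenpart φ τ).map (V.gr j) ⊓ (T j).hodge p : Submodule ℂ (T j).W) ≤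
          finrank ℂ ((eigenpart φ τ).map (V.gr j) : Submodule ℂ (T j).W) :=
      fun j => finrank_parts_le _ (hnT j)
    have h2 : ∑ j, ∑ p ∈ Finset.range (n + 1), finrank ℂ
        ((eigenpart φ τ).map (V.gr j) ⊓ (T j).hodge p : Submodule ℂ (T j).W) =
          ∑ j, finrank ℂ ((eigenpart φ τ).map (V.gr j) : Submodule ℂ (T j).W) := by
      rw [V.finrank_gr (hstab τ), Finset.sum_comm, ← finrank_graded (hS τ) hnS]
      exact Finset.sum_congr rfl fun p _ => hV.2 τ p
    exact (Finset.sum_eq_sum_iff_of_le fun j _ => h1 j).1 h2 j (Finset.mem_univ j)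
  have hdR : ∀ j τ, eig (κ j) τ ≤ Submodule.span ℂ {x | x ∈ (T j).D ∧ x ∈ eig (κ j) τ} := by
    intro j τ
    let v := Module.finBasis ℂ (eigenpart φ τ)
    have hv : LinearIndependent ℂ fun i => (v i : S.W) :=
      v.linearIndependent.map' (eigenpart φ τ).subtype (Submodule.ker_subtype _)
    have hvL : Submodule.span ℂ (Set.range fun i => (v i : S.W)) = eigenpart φ τ := by
      have h1 : (Set.range fun i => (v i : S.W)) = (eigenpart φ τ).subtype '' Set.range v := by
        rw [← Set.range_comp]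
        rfl
      rw [h1, ← Submodule.map_span, v.span_eq, Submodule.map_top, Submodule.range_subtype]
    obtain ⟨-, b, -, -, -, ⟨-, hbL, hbD, -⟩, -⟩ := V.period φ hφ hr τ hv hvL
    rw [heig', heig]
    conv_lhs => rw [← hbL, Submodule.map_span]
    refine Submodule.span_mono ?_
    rintro _ ⟨_, ⟨i, rfl⟩, rfl⟩
    refine ⟨hbD i j, ⟨b i, ?_, rfl⟩⟩
    rw [← hbL]
    exact Submodule.subset_span ⟨i, rfl⟩
  refine ⟨ψ, N, κ, hψ, heig, fun j => ⟨hNle j, ?_, ?_⟩, fun j a => ⟨?_, ?_, ?_⟩, ?_, ?_⟩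
  · refine (cx_le_iSup_eig (κ j)).trans (iSup_le fun τ => (hgr j τ).trans
      (iSup_mono fun p => ?_))
    exact inf_le_inf_right _ (eig_le (κ j) τ)
  · refine (cx_le_iSup_eig (κ j)).trans (iSup_le fun τ => (hdR j τ).trans
      (Submodule.span_mono ?_))
    exact fun x hx => ⟨hx.1, eig_le (κ j) τ hx.2⟩
  · intro x hx
    rw [hκ]
    exact hNN j _ (hψB j a _ (hNle j hx)) (by rw [hmul, one_mul])
  · exact fun x hx => act_dR (κ j) (hdR j) a hx
  · exact fun p x hx => act_hodge (κ j) (hgr j) a hx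
  · intro j τ z hz
    refine detPeriod_of (heig' j) ?_ hz
    intro w hw hw1
    have h2 : Submodule.span Qbar ((T j).B : Set (T j).W) ≤
        (Submodule.span Qbar (N j : Set (T j).W)).comap ((ψ j 1).restrictScalars Qbar) := by
      rw [Submodule.span_le]
      intro x hx
      exact Submodule.subset_span (show ψ j 1 x ∈ N j from ⟨x, hx, rfl⟩)
    have h3 : ψ j 1 w ∈ Submodule.span Qbar (N j : Set (T j).W) := h2 hw
    rwa [hw1] at h3
  · intro τ
    rw [factorType, type_extend S _ hnS]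
    have h1 : ∀ j, detType (κ j) τ = ∑ p ∈ Finset.range (n + 1), p * finrank ℂ
        ((eigenpart φ τ).map (V.gr j) ⊓ (T j).hodge p : Submodule ℂ (T j).W) := by
      intro j
      rw [detType, type_extend (T j) _ (hnT j), heig', heig]
    rw [Finset.sum_congr rfl fun j _ => h1 j, Finset.sum_comm]
    refine Finset.sum_congr rfl fun p _ => ?_
    rw [← Finset.mul_sum, hV.2 τ p]

end GD
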