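import Pool.Agent.H26.LM.Per
import Pool.Agent.H26.FC.Alg
import Pool.Agent.H26.FM.Cen

/-!
# Determinants of periods of the fibre and of the graded pieces of the limit
-/

noncomputable section

namespace GD

open Complex NumberField

/-- The determinant of a block diagonal matrix. -/
private theorem det_blocks {k : ℕ} {n : Fin k → ℕ}
    (P : ∀ j, Matrix (Fin (n j)) (Fin (n j)) ℂ) :
    (Matrix.blockDiagonal' P).det = ∏ j, (P j).det := by
  rw [(Matrix.blockTriangular_blockDiagonal' P).det_fintype]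
  refine Finset.prod_congr rfl fun j _ => ?_
  rw [← Matrix.det_submatrix_equiv_self (Equiv.sigmaSubtype (β := fun j => Fin (n j)) j).symm]
  congr 1
  ext a b
  exact Matrix.blockDiagonal'_apply_eq P j a b

/-- The coordinates of a vector of a form over the algebraic numbers in vectors of this form. -/
private theorem coord_Qbar {W : Type} [AddCommGroup W] [Module ℂ W] {n m : ℕ} {ω : Fin n → W}
    (hω : LinearIndependent ℂ ω) {b : Fin m → W} (hb : LinearIndependent ℂ b)
    (hbD : ∀ i, b i ∈ Submodule.span Qbar (Set.range ω)) {c : W}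
    (hc : c ∈ Submodule.span Qbar (Set.range ω)) {q : Fin m → ℂ} (h : c = ∑ i, q i • b i) :
    ∀ i, q i ∈ Qbar := by
  obtain ⟨l, hl⟩ := exists_ellQ
  have hB : ∀ i, ∃ B : Fin n → Qbar, ∑ j, B j • ω j = b i := fun i =>
    (Submodule.mem_span_range_iff_exists_fun Qbar).1 (hbD i)
  choose B hB using hB
  obtain ⟨C, hC⟩ := (Submodule.mem_span_range_iff_exists_fun Qbar).1 hc
  have hB' : ∀ i, b i = ∑ j, (B i j : ℂ) • ω j := fun i => (hB i).symm
  have hC' : c = ∑ j, (C j : ℂ) • ω j := hC.symm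
  have h1 : ∀ j, (C j : ℂ) = ∑ i, (B i j : ℂ) * q i := by
    have h2 : ∑ j, ((C j : ℂ) - ∑ i, (B i j : ℂ) * q i) • ω j = 0 := by
      simp only [sub_smul, Finset.sum_sub_distrib]
      rw [← hC', h, sub_eq_zero]
      simp only [hB', Finset.smul_sum, smul_smul, Finset.sum_smul]
      rw [Finset.sum_comm]
      refine Finset.sum_congr rfl fun j _ => Finset.sum_congr rfl fun i _ => ?_
      rw [mul_comm]
    intro j
    exact sub_eq_zero.1 (Fintype.linearIndependent_iff.1 hω _ h2 j)
  have h3 : ∀ j, (C j : ℂ) = ∑ i, (B i j : ℂ) * (l (q i) : ℂ) := by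
    intro j
    have h4 : l (C j : ℂ) = ∑ i, B i j * l (q i) := by
      rw [h1 j, map_sum]
      refine Finset.sum_congr rfl fun i _ => ?_
      have h5 : (B i j : ℂ) * q i = B i j • q i := rfl
      rw [h5, map_smul, smul_eq_mul]
    rw [hl] at h4
    have h6 : (C j : ℂ) = ((∑ i, B i j * l (q i) : Qbar) : ℂ) := congrArg (fun x : Qbar => (x : ℂ)) h4
    rw [h6]
    push_cast
    rfl
  have h7 : ∑ i, (q i - (l (q i) : ℂ)) • b i = 0 := by
    simp only [sub_smul, Finset.sum_sub_distrib]
    rw [← h, sub_eq_zero, hC']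
    simp only [hB', Finset.smul_sum, smul_smul]
    rw [Finset.sum_comm]
    refine Finset.sum_congr rfl fun j _ => ?_
    rw [h3 j, Finset.sum_smul]
    refine Finset.sum_congr rfl fun i _ => ?_
    rw [mul_comm]
  intro i
  rw [sub_eq_zero.1 (Fintype.linearIndependent_iff.1 hb _ h7 i)]
  exact (l (q i)).2

/-- The determinant of a matrix with algebraic entries is algebraic. -/
private theorem det_Qbar {m : ℕ} {Q : Matrix (Fin m) (Fin m) ℂ} (h : ∀ i j, Q i j ∈ Qbar) :
    IsAlgebraic ℚ Q.det := by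
  let Q' : Matrix (Fin m) (Fin m) Qbar := Matrix.of fun i j => ⟨Q i j, h i j⟩
  have h1 : Q = (algebraMap Qbar ℂ).mapMatrix Q' := by
    ext i j
    rfl
  rw [h1, ← RingHom.map_det]
  exact mem_algebraicClosure_iff.1 (Q'.det).2

/-- Two determinants with respect to the same vectors, of bases in a form over the algebraic
numbers. -/
private theorem det_sim {W : Type} [AddCommGroup W] [Module ℂ W] {n m : ℕ} {ω : Fin n → W}
    (hω : LinearIndependent ℂ ω) {w b c : Fin m → W} {Y Z : Matrix (Fin m) (Fin m) ℂ}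
    (hb : LinearIndependent ℂ b) (hbY : ∀ i, b i = ∑ j, Y i j • w j)
    (hcZ : ∀ i, c i = ∑ j, Z i j • w j) (hY : Y.det ≠ 0) (hZ : Z.det ≠ 0)
    (hbD : ∀ i, b i ∈ Submodule.span Qbar (Set.range ω))
    (hcD : ∀ i, c i ∈ Submodule.span Qbar (Set.range ω)) : Sim Z.det Y.det := by
  have hYu : IsUnit Y.det := isUnit_iff_ne_zero.2 hY
  have hw : ∀ j, w j = ∑ i, Y⁻¹ j i • b i := by
    intro j
    simp only [hbY, Finset.smul_sum, smul_smul]
    rw [Finset.sum_comm]
    have h1 : ∀ l, ∑ i, (Y⁻¹ j i * Y i l) • w l = (if j = l then (1 : ℂ) else 0) • w l := by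
      intro l
      rw [← Finset.sum_smul]
      congr 1
      have h2 := congrFun (congrFun (Matrix.nonsing_inv_mul Y hYu) j) l
      rw [Matrix.mul_apply, Matrix.one_apply] at h2
      exact h2
    rw [Finset.sum_congr rfl fun l _ => h1 l]
    simp
  have hc : ∀ i, c i = ∑ l, (Z * Y⁻¹) i l • b l := by
    intro i
    rw [hcZ i]
    have h1 : ∀ j, Z i j • w j = ∑ l, (Z i j * Y⁻¹ j l) • b l := by
      intro j
      conv_lhs => rw [hw j, Finset.smul_sum]
      exact Finset.sum_congr rfl fun l _ => smul_smul _ _ _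
    rw [Finset.sum_congr rfl fun j _ => h1 j, Finset.sum_comm]
    refine Finset.sum_congr rfl fun l _ => ?_
    rw [← Finset.sum_smul, Matrix.mul_apply]
  have hQ : ∀ i l, (Z * Y⁻¹) i l ∈ Qbar := fun i l => coord_Qbar hω hb hbD (hcD i) (hc i) l
  refine ⟨hZ, hY, ?_⟩
  have h1 := det_Qbar hQ
  rw [Matrix.det_mul, Matrix.det_nonsing_inv, Ring.inverse_eq_inv'] at h1
  rwa [div_eq_mul_inv]

section factor

variable {S : Str} {K : Type} [Field K] [NumberField K]

/-- A basis inside a spanning family. -/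
private theorem exists_sub_basis {E : Type} [AddCommGroup E] [Module ℂ E] [FiniteDimensional ℂ E]
    {n m : ℕ} {L : Submodule ℂ E} (x : Fin n → E) (hx : Submodule.span ℂ (Set.range x) = L)
    (hm : Module.finrank ℂ L = m) : ∃ J : Fin m → Fin n, LinearIndependent ℂ (fun i => x (J i)) ∧
      Submodule.span ℂ (Set.range fun i => x (J i)) = L := by
  obtain ⟨J, hJ⟩ := exists_sub_indep (m := m) x (by rw [hx, hm])
  refine ⟨J, hJ, Submodule.eq_of_le_of_finrank_eq ?_ ?_⟩
  · rw [← hx]
    apply Submodule.span_mono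
    rintro _ ⟨i, rfl⟩
    exact ⟨J i, rfl⟩
  · rw [finrank_span_eq_card hJ, Fintype.card_fin, hm]

omit [NumberField K] in
/-- Determinants of periods of a part which is spanned by vectors of both forms. -/
private theorem exists_factorPeriod (ψ : K →ₙ+* Module.End ℂ S.W) (τ : K →+* ℂ) {m : ℕ}
    {x y : Fin m → S.W} (hx : Submodule.span ℂ (Set.range x) = eigenpart ψ τ)
    (hxB : ∀ i, x i ∈ Submodule.span Qbar (S.B : Set S.W))
    (hy : Submodule.span ℂ (Set.range y) = eigenpart ψ τ) (hyD : ∀ i, y i ∈ S.D) :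
    ∃ z, IsFactorPeriod ψ τ z := by
  obtain ⟨J, hJ, hJs⟩ := exists_sub_basis x hx rfl
  obtain ⟨J', hJ', hJs'⟩ := exists_sub_basis y hy rfl
  have hP : ∀ i, ∃ c : Fin (Module.finrank ℂ (eigenpart ψ τ)) → ℂ,
      ∑ j, c j • x (J j) = y (J' i) := by
    intro i
    apply (Submodule.mem_span_range_iff_exists_fun ℂ).1
    rw [hJs, ← hJs']
    exact Submodule.subset_span ⟨i, rfl⟩
  choose P hP using hP
  exact ⟨_, _, fun i => x (J i), Matrix.of P, hJ, hJs, fun i => ⟨hxB _, by
    change ∑ j, P i j • x (J j) ∈ S.D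
    rw [hP]
    exact hyD _⟩, rfl, det_ne_of_basis hJ' fun i => (hP i).symm⟩

/-- Determinants of periods of a factor are unique up to algebraic factors. -/
private theorem factorPeriod_sim (φ : K →ₙ+* Module.End ℂ S.W)
    (hφ : ∀ a, IsHom S S (φ a)) {τ : K →+* ℂ} {z z' : ℂ} (hz : IsFactorPeriod φ τ z)
    (hz' : IsFactorPeriod φ τ z') : Sim z z' := by
  by_cases h1 : φ 1 = 0
  · have h2 : ∀ z, IsFactorPeriod φ τ z → z = 1 := by
      rintro z ⟨n, v, P, hv, hvL, -, rfl, -⟩
      have hn : n = 0 := by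
        have h2 := finrank_span_eq_card hv
        have h3 : eigenpart φ τ = ⊥ := by
          rw [Submodule.eq_bot_iff]
          intro x hx
          have h2 := (mem_eigenpart φ τ x).1 hx 1
          rw [h1, map_one τ, one_smul, LinearMap.zero_apply] at h2
          exact h2.symm
        rw [hvL, h3, finrank_bot, Fintype.card_fin] at h2
        exact h2.symm
      subst hn
      rw [Matrix.det_isEmpty]
    rw [h2 z hz, h2 z' hz']
    exact Sim.refl one_ne_zero
  obtain ⟨M, ι, hM, -, hι, hικ, hMQ, -, -⟩ := exists_sub φ hφ h1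
  exact detPeriod_sim hM.le ι (detPeriod_of hικ hMQ hz) (detPeriod_of hικ hMQ hz')

end factor

variable {S : Str} {k : ℕ} {T : Fin k → Str} (V : LimFam S T)

/-- The splitting. -/
private theorem LimFam.exists_incl : ∃ G : ∀ j, (T j).W →ₗ[ℂ] S.W,
    (∀ j y, V.gr j (G j y) = y) ∧ (∀ j j' y, j' ≠ j → V.gr j' (G j y) = 0) ∧
    (∀ x, x = ∑ j, G j (V.gr j x)) ∧ ∀ x, (∀ j, V.gr j x = 0) → x = 0 := by
  classical
  let g : S.W →ₗ[ℂ] ∀ j, (T j).W := LinearMap.pi V.gr
  have hg : Function.Bijective g := by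
    constructor
    · intro x y hxy
      obtain ⟨w, -, hw⟩ := V.gr_bij (g x)
      rw [hw x fun j => rfl, hw y fun j => (congrFun hxy j).symm]
    · intro y
      obtain ⟨w, hw, -⟩ := V.gr_bij y
      exact ⟨w, funext hw⟩
  let Γ := LinearEquiv.ofBijective g hg
  have hΓ : ∀ y j, V.gr j (Γ.symm y) = y j := by
    intro y j
    exact congrFun (Γ.apply_symm_apply y) j
  have h0 : ∀ x, (∀ j, V.gr j x = 0) → x = 0 := by
    intro x hx
    apply hg.1
    rw [map_zero]
    exact funext hx
  have h1 : ∀ j y, V.gr j (Γ.symm (Pi.single j y)) = y := by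
    intro j y
    rw [hΓ, Pi.single_eq_same]
  have h2 : ∀ j j' y, j' ≠ j → V.gr j' (Γ.symm (Pi.single j y)) = 0 := by
    intro j j' y h
    rw [hΓ, Pi.single_eq_of_ne h]
  refine ⟨fun j => Γ.symm.toLinearMap ∘ₗ LinearMap.single ℂ (fun j => (T j).W) j, h1, h2, ?_, h0⟩
  intro x
  rw [← sub_eq_zero]
  apply h0
  intro j
  rw [map_sub, map_sum, Finset.sum_eq_single j]
  · rw [sub_eq_zero]
    exact (h1 j _).symm
  · intro j' _ h
    exact h2 j' j _ h.symm
  · intro h
    exact absurd (Finset.mem_univ j) h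

/-- A determinant of periods of the fibre is a product of determinants of periods of the graded
pieces of the limit, up to an algebraic factor. -/
theorem LimFam.factor_period {K : Type} [Field K] [NumberField K]
    (φ : K →ₙ+* Module.End ℂ S.W) (hφ : ∀ a, IsHom S S (φ a)) (hr : ∀ a, V.Resp (φ a))
    (ψ : ∀ j, K →ₙ+* Module.End ℂ (T j).W)
    (hφψ : ∀ j a w, V.gr j (φ a w) = ψ j a (V.gr j w))
    (heig : ∀ j τ, eigenpart (ψ j) τ = (eigenpart φ τ).map (V.gr j)) (τ : K →+* ℂ) {z : ℂ}
    (hz : IsFactorPeriod φ τ z) :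
    ∃ z' : Fin k → ℂ, (∀ j, IsFactorPeriod (ψ j) τ (z' j)) ∧ Sim z (∏ j, z' j) := by
  classical
  obtain ⟨G, hG1, hG2, hGs, hG0⟩ := V.exists_incl
  have hper : ∀ j, ∃ z', IsFactorPeriod (ψ j) τ z' := by
    intro j
    obtain ⟨n, v, P, hv, hvL, hvP, -, -⟩ := hz
    obtain ⟨-, b, -, -, -, ⟨-, hbL, hbD, -⟩, -⟩ := V.period φ hφ hr τ hv hvL
    have hspan : ∀ x : Fin n → S.W, Submodule.span ℂ (Set.range x) = eigenpart φ τ →
        Submodule.span ℂ (Set.range fun i => V.gr j (x i)) = eigenpart (ψ j) τ := by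
      intro x hx
      rw [heig, ← hx, Submodule.map_span]
      congr 1
      exact Set.range_comp (V.gr j) x
    refine exists_factorPeriod (ψ j) τ (hspan v hvL) (fun i => ?_) (hspan b hbL) fun i => hbD i j
    have h2 : Submodule.span Qbar (S.B : Set S.W) ≤
        (Submodule.span Qbar ((T j).B : Set (T j).W)).comap ((V.gr j).restrictScalars Qbar) := by
      rw [Submodule.span_le]
      intro y hy
      exact Submodule.subset_span ((V.gr_B y).1 hy j)
    exact h2 (hvP i).1
  choose z' hz' using hper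
  refine ⟨z', hz', ?_⟩
  choose n v P hv hvL hvP hzP hz0 using hz'
  -- the adapted bases
  let w : (Σ j, Fin (n j)) → S.W := fun x => G x.1 (v x.1 x.2)
  let c : (Σ j, Fin (n j)) → S.W := fun x => G x.1 (∑ l, P x.1 x.2 l • v x.1 l)
  have hcw : ∀ x, c x = ∑ y, Matrix.blockDiagonal' P x y • w y := by
    rintro ⟨j, i⟩
    rw [Fintype.sum_sigma, Finset.sum_eq_single j]
    · change G j (∑ l, P j i l • v j l) = ∑ l, Matrix.blockDiagonal' P ⟨j, i⟩ ⟨j, l⟩ • G j (v j l)
      rw [map_sum]
      refine Finset.sum_congr rfl fun l _ => ?_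
      rw [map_smul, Matrix.blockDiagonal'_apply_eq]
    · intro j' _ h
      refine Finset.sum_eq_zero fun l _ => ?_
      rw [Matrix.blockDiagonal'_apply_ne P _ _ h.symm, zero_smul]
    · intro h
      exact absurd (Finset.mem_univ j) h
  have hwE : ∀ x, w x ∈ eigenpart φ τ := by
    rintro ⟨j, i⟩
    rw [mem_eigenpart]
    intro a
    rw [← sub_eq_zero]
    apply hG0
    intro j'
    rw [map_sub, hφψ, map_smul]
    by_cases h : j' = j
    · subst h
      change ψ j' a (V.gr j' (G j' (v j' i))) - τ a • V.gr j' (G j' (v j' i)) = 0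
      rw [hG1, sub_eq_zero]
      have h1 : v j' i ∈ eigenpart (ψ j') τ := by
        rw [← hvL j']
        exact Submodule.subset_span (Set.mem_range_self i)
      exact (mem_eigenpart _ _ _).1 h1 a
    · change ψ j' a (V.gr j' (G j (v j i))) - τ a • V.gr j' (G j (v j i)) = 0
      rw [hG2 j j' _ h, map_zero, smul_zero, sub_zero]
  have hwl : LinearIndependent ℂ w := by
    rw [Fintype.linearIndependent_iff]
    intro u hu
    rintro ⟨j, i⟩
    have h1 := congrArg (V.gr j) hu
    rw [map_zero, map_sum, Fintype.sum_sigma, Finset.sum_eq_single j] at h1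
    · have h2 : ∑ l, u ⟨j, l⟩ • v j l = 0 := by
        rw [← h1]
        refine Finset.sum_congr rfl fun l _ => ?_
        change _ = V.gr j (u ⟨j, l⟩ • G j (v j l))
        rw [map_smul, hG1]
      exact Fintype.linearIndependent_iff.1 (hv j) _ h2 i
    · intro j' _ h
      refine Finset.sum_eq_zero fun l _ => ?_
      change V.gr j (u ⟨j', l⟩ • G j' (v j' l)) = 0
      rw [map_smul, hG2 j' j _ h.symm, smul_zero]
    · intro h
      exact absurd (Finset.mem_univ j) h
  have hws : Submodule.span ℂ (Set.range w) = eigenpart φ τ := by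
    apply le_antisymm
    · rw [Submodule.span_le]
      rintro _ ⟨x, rfl⟩
      exact hwE x
    · intro x hx
      rw [hGs x]
      refine Submodule.sum_mem _ fun j _ => ?_
      have h1 : V.gr j x ∈ Submodule.span ℂ (Set.range (v j)) := by
        rw [hvL j, heig]
        exact ⟨x, hx, rfl⟩
      have h2 : Submodule.span ℂ (Set.range (v j)) ≤
          (Submodule.span ℂ (Set.range w)).comap (G j) := by
        rw [Submodule.span_le]
        rintro _ ⟨i, rfl⟩
        exact Submodule.subset_span ⟨⟨j, i⟩, rfl⟩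
      exact h2 h1
  have hwB : ∀ x, w x ∈ Submodule.span Qbar (S.B : Set S.W) := by
    rintro ⟨j, i⟩
    have h2 : Submodule.span Qbar ((T j).B : Set (T j).W) ≤
        (Submodule.span Qbar (S.B : Set S.W)).comap ((G j).restrictScalars Qbar) := by
      rw [Submodule.span_le]
      intro y hy
      refine Submodule.subset_span ((V.gr_B _).2 fun j' => ?_)
      change V.gr j' (G j y) ∈ (T j').B
      by_cases h : j' = j
      · subst h
        rw [hG1]
        exact hy
      · rw [hG2 j j' _ h]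
        exact zero_mem _
    exact h2 ((hvP j i).1)
  have hcD : ∀ x, c x ∈ Submodule.span Qbar (Set.range V.ω) := by
    rintro ⟨j, i⟩
    refine (V.gr_D _).1 fun j' => ?_
    change V.gr j' (G j (∑ l, P j i l • v j l)) ∈ (T j').D
    by_cases h : j' = j
    · subst h
      rw [hG1]
      exact (hvP j' i).2
    · rw [hG2 j j' _ h]
      exact zero_mem _
  -- reindexing
  let e : Fin (∑ j, n j) ≃ Σ j, Fin (n j) := finSigmaFinEquiv.symm
  have hwl' : LinearIndependent ℂ (w ∘ e) := hwl.comp _ e.injective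
  have hws' : Submodule.span ℂ (Set.range (w ∘ e)) = eigenpart φ τ := by
    rw [e.surjective.range_comp, hws]
  obtain ⟨a, b, X, Y, ⟨ha, haL, haD, haX⟩, ⟨hb, hbL, hbD, hbY⟩, hXY⟩ :=
    V.period φ hφ hr τ hwl' hws'
  have h1 : IsFactorPeriod φ τ X.det := by
    refine ⟨_, w ∘ e, X, hwl', hws', fun i => ⟨hwB _, ?_⟩, rfl, hXY.1⟩
    rw [← haX]
    exact haD i
  let Z : Matrix (Fin (∑ j, n j)) (Fin (∑ j, n j)) ℂ := (Matrix.blockDiagonal' P).submatrix e e
  have hZ : Z.det = ∏ j, z' j := by
    rw [Matrix.det_submatrix_equiv_self, det_blocks]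
    exact Finset.prod_congr rfl fun j _ => (hzP j).symm
  have hZ0 : Z.det ≠ 0 := by
    rw [hZ]
    exact Finset.prod_ne_zero_iff.2 fun j _ => hz0 j
  have h2 : Sim Z.det Y.det := by
    refine det_sim V.basis.1 (w := w ∘ e) (b := b) (c := c ∘ e) hb hbY (fun i => ?_) hXY.2.1 hZ0
      (fun i => (V.gr_D _).1 fun j => hbD i j) fun i => hcD _
    change c (e i) = ∑ j, Matrix.blockDiagonal' P (e i) (e j) • w (e j)
    rw [hcw, ← Equiv.sum_comp e]
  rw [← hZ]
  exact (factorPeriod_sim φ hφ hz h1).trans (hXY.trans h2.symm)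

end GD
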