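import Pool.Agent.H26.FM.Cen
import Pool.Agent.H27.GD.Transp

/-!
# The relation for products of determinants
-/

noncomputable section

namespace GD

open Complex NumberField

/-- The complex conjugation does not change dimensions. -/
private theorem finrank_conj (S : Str) (A B : Submodule ℂ S.W) (h : ∀ x ∈ A, S.conj x ∈ B) :
    Module.finrank ℂ A ≤ Module.finrank ℂ B := by
  let f : A →ₗ[ℝ] B :=
    { toFun := fun x => ⟨S.conj x, h x x.2⟩
      map_add' := fun x y => Subtype.ext (map_add S.conj _ _)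
      map_smul' := fun r x => by
        apply Subtype.ext
        change S.conj ((r : ℂ) • (x : S.W)) = (r : ℂ) • S.conj (x : S.W)
        rw [DT.conj_smul, Complex.conj_ofReal] }
  have hf : Function.Injective f := by
    intro x y hxy
    apply Subtype.ext
    have h1 : S.conj (x : S.W) = S.conj (y : S.W) := congrArg Subtype.val hxy
    have h2 := congrArg S.conj h1
    rwa [DT.conj_conj', DT.conj_conj'] at h2
  have h1 := LinearMap.finrank_le_finrank_of_injective hf
  rw [finrank_real_of_complex, finrank_real_of_complex] at h1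
  omega

section type

variable {T : Str} {K : Type} [Field K] {N : Submodule ℚ T.W} (κ : K →+* Module.End ℂ (T.cx N))

private theorem eig_bot (h : N = ⊥) (τ : K →+* ℂ) : eig κ τ = ⊥ := by
  have h1 : T.cx N = ⊥ := by
    rw [h]
    exact Submodule.span_zero_singleton ℂ
  exact le_bot_iff.1 (h1 ▸ eig_le κ τ)

private theorem type_bot (h : N = ⊥) (τ : K →+* ℂ) : detType κ τ = 0 := by
  unfold detType
  refine Finset.sum_eq_zero fun p _ => ?_
  rw [eig_bot κ h, bot_inf_eq, finrank_bot, mul_zero]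

/-- The Hodge types of conjugate parts. -/
private theorem type_conj [NumberField K] (hN : IsSub T N) (hκ : ∀ a, IsEnd T N (κ a))
    (τ : K →+* ℂ) : detType κ τ + detType κ (ComplexEmbedding.conjugate τ) =
      T.wt * Module.finrank ℂ (eig κ τ) := by
  have hgr := eig_hodge κ hN hκ τ
  have hcc : ComplexEmbedding.conjugate (ComplexEmbedding.conjugate τ) = τ := conj_conj τ
  have hdim : ∀ p, p ≤ T.wt → Module.finrank ℂ
      (eig κ (ComplexEmbedding.conjugate τ) ⊓ T.hodge (T.wt - p) : Submodule ℂ T.W) =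
      Module.finrank ℂ (eig κ τ ⊓ T.hodge p : Submodule ℂ T.W) := by
    intro p hp
    apply le_antisymm
    · refine finrank_conj T _ _ fun x hx => ⟨?_, ?_⟩
      · have h2 := conj_eig κ hN.le hκ hx.1
        rwa [hcc] at h2
      · have h2 := T.hodge_conj (T.wt - p) (Nat.sub_le _ _) x hx.2
        rwa [Nat.sub_sub_self hp] at h2
    · exact finrank_conj T _ _ fun x hx => ⟨conj_eig κ hN.le hκ hx.1, T.hodge_conj p hp x hx.2⟩
  have h2 : detType κ (ComplexEmbedding.conjugate τ) = ∑ p ∈ Finset.range (T.wt + 1),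
      (T.wt - p) * Module.finrank ℂ (eig κ τ ⊓ T.hodge p : Submodule ℂ T.W) := by
    unfold detType
    rw [← Finset.sum_range_reflect]
    refine Finset.sum_congr rfl fun p hp => ?_
    rw [Finset.mem_range] at hp
    have e : T.wt + 1 - 1 - p = T.wt - p := by omega
    rw [e, hdim p (by omega)]
  have h3 := finrank_graded hgr (le_refl T.wt)
  rw [h2, ← h3, Finset.mul_sum]
  unfold detType
  rw [← Finset.sum_add_distrib]
  refine Finset.sum_congr rfl fun p hp => ?_
  rw [Finset.mem_range] at hp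
  rw [← add_mul]
  congr 1
  omega

/-- The sum of the types of conjugate parts is constant. -/
private theorem exists_sumType [NumberField K] (hN : IsSub T N) (hκ : ∀ a, IsEnd T N (κ a)) :
    ∃ m : ℚ, ∀ τ : K →+* ℂ,
      (detType κ τ : ℚ) + (detType κ (ComplexEmbedding.conjugate τ) : ℚ) = m := by
  by_cases hne : Nonempty (K →+* ℂ)
  · obtain ⟨τ0⟩ := hne
    refine ⟨(T.wt * Module.finrank ℂ (eig κ τ0) : ℕ), fun τ => ?_⟩
    have h2 := type_conj κ hN hκ τ
    rw [finrank_eig κ hN hκ τ τ0] at h2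
    rw [← h2]
    push_cast
    rfl
  · exact ⟨0, fun τ => absurd ⟨τ⟩ hne⟩

end type

/-- The relation for a determinant which is a product of determinants. -/
theorem factorRelation_of_prod {K : Type} [Field K] [NumberField K] {e : K →+* ℂ}
    (he : ∃ d, LiesIn e d) (him : ∃ x, (e x).im ≠ 0) {S : Str} (φ : K →ₙ+* Module.End ℂ S.W)
    {k : ℕ} {T : Fin k → Str} {N : ∀ j, Submodule ℚ (T j).W}
    (κ : ∀ j, K →+* Module.End ℂ ((T j).cx (N j))) (hN : ∀ j, IsSub (T j) (N j))
    (hκ : ∀ j a, IsEnd (T j) (N j) (κ j a))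
    (htype : ∀ τ, factorType φ τ = ∑ j, detType (κ j) τ)
    (hper : ∀ τ z, IsFactorPeriod φ τ z →
      ∃ z' : Fin k → ℂ, (∀ j, IsDetPeriod (κ j) τ (z' j)) ∧ Sim z (∏ j, z' j))
    (hrel : ∀ j, DetRelation (κ j) e) : FactorRelation φ e := by
  have hcond := liesIn_conductor he
  intro d _ hd ε hε l τ hτ z hz
  rw [← hd] at hcond
  have hdd : (d : ℚ) ≠ 0 := by exact_mod_cast NeZero.ne d
  have hex : ∀ j, ∃ ε' : ZMod d → ℚ, ∀ l', tsum' d (fun x => x) ε' l' =
      (detType (κ j) (phi e hcond.2 l') : ℚ) := by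
    intro j
    obtain ⟨m, hm⟩ := exists_sumType (κ j) (hN j) (hκ j)
    refine ex' gammaSpec d (three_le hcond.2 him) m
      (fun l' => (detType (κ j) (phi e hcond.2 l') : ℚ)) fun l' => ?_
    rw [← conj_phi e hcond.2 l']
    exact hm _
  choose ε' hε' using hex
  have hj : ∀ j l', (d : ℚ) * detType (κ j) (phi e hcond.2 l') =
      ∑ a ∈ Finset.univ.erase (0 : ZMod d), ε' j a * (((l' : ZMod d) * a).val : ℚ) := by
    intro j l'
    rw [sum_erase, ← tsum_id, hε']
  obtain ⟨z', hz', hsim⟩ := hper τ z hz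
  have hs : ∀ j, Sim (z' j) (gammaProd d (ε' j) l) := by
    intro j
    refine hrel j d hd (ε' j) (fun l' τ' hτ' => ?_) l τ hτ (z' j) (hz' j)
    rw [(isPhi_iff e hcond.2 l' τ').1 hτ']
    exact hj j l'
  have hsum : ∀ l', tsum' d (fun x => x) (fun a => ∑ j, ε' j a) l' = tsum' d (fun x => x) ε l' := by
    intro l'
    have h3 := hε l' (phi e hcond.2 l') ((isPhi_iff e hcond.2 l' _).2 rfl)
    rw [sum_erase, ← tsum_id] at h3
    rw [← mul_left_cancel₀ hdd h3, htype, tsum_sum]
    push_cast
    exact Finset.sum_congr rfl fun j _ => hε' j l'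
  refine sim_of_cls gammaSpec hsim.1 (gammaProd_ne d ε l) ?_
  rw [cls_of_sim gammaSpec hsim, cls_prod gammaSpec _ _ (fun j _ => (hs j).1),
    Finset.sum_congr rfl fun j _ => cls_of_sim gammaSpec (hs j), cls_gammaProd gammaSpec,
    ← ko' gammaSpec d _ ε hsum l, tsum_sum]
  exact Finset.sum_congr rfl fun j _ => cls_gammaProd gammaSpec d (ε' j) l

/-- The relation for the determinants of all substructures with an action of a polarised
structure, from the relation for the triples. -/
theorem detRelation_of_triples {C₀ : Str → Prop} {F : Type} [Field F] [NumberField F]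
    {e : F →+* ℂ} (hP₀ : ∀ T, C₀ T → Nonempty (Pol T)) (he : ∃ d, LiesIn e d)
    (h₀ : TriplesFor (Gen C₀) e) {K : Type} [Field K] [NumberField K] (i : K →+* F) {T : Str}
    (hT : C₀ T) {N : Submodule ℚ T.W} (hN : IsSub T N) (κ : K →+* Module.End ℂ (T.cx N))
    (hκ : ∀ a, IsEnd T N (κ a)) : DetRelation κ (e.comp i) := by
  have hex' : ∃ d, LiesIn (e.comp i) d := by
    obtain ⟨d, hd⟩ := he
    exact ⟨d, hd.1, fun x => hd.2 (i x)⟩
  by_cases h1 : N = ⊥
  · have hcond := liesIn_conductor hex'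
    intro d _ hd ε hε l τ hτ z hz
    rw [← hd] at hcond
    have hdd : (d : ℚ) ≠ 0 := by exact_mod_cast NeZero.ne d
    have h0 := (detPeriod_trace κ hN.le hz).1
    obtain ⟨n, v, ω, P, hv, hvL, -, -, -, -, -, rfl⟩ := hz
    have hn : n = 0 := by
      have h2 := finrank_span_eq_card hv
      rw [hvL, eig_bot κ h1, finrank_bot, Fintype.card_fin] at h2
      exact h2.symm
    subst hn
    refine sim_of_cls gammaSpec h0 (gammaProd_ne d ε l) ?_
    have hsum : ∀ l', tsum' d (fun x => x) (fun _ : ZMod d => (0 : ℚ)) l' =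
        tsum' d (fun x => x) ε l' := by
      intro l'
      have h3 := hε l' (phi (e.comp i) hcond.2 l') ((isPhi_iff _ hcond.2 l' _).2 rfl)
      rw [sum_erase, ← tsum_id] at h3
      rw [← mul_left_cancel₀ hdd h3, type_bot κ h1, Nat.cast_zero]
      simp [tsum']
    rw [cls_gammaProd gammaSpec, ← ko' gammaSpec d _ ε hsum l, Matrix.det_isEmpty,
      cls_one gammaSpec]
    simp [tsum']
  obtain ⟨P⟩ := hP₀ T hT
  obtain ⟨k, -, f, hfc, hfp⟩ := DT.exists_fam_tpow κ P hN h1 hκ
  refine detRelation_of hN.le κ hex' f hfc hfp fun A => ?_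
  exact det_suffices hP₀ (e.comp i) hex'
    (detFor_sub i (DT.det_of_relation gammaSpec hP₀ e he h₀))
    (powOf_gen (Gen.base T hT) (powOf_tpow T k)) A

end GD
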