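import Pool.Agent.H26.LM.Gr
import Pool.Agent.H26.LM.Prod
import Pool.Agent.H26.LM.Rel
import Pool.Agent.H26.LM.GenInj

/-!
# The class reached by degenerating families
-/

noncomputable section

namespace GD

open Complex NumberField

variable {C₀ : Str → Prop} {F : Type} [Field F] [NumberField F] {e : F →+* ℂ}

/-- The determinants of periods of the fibre are products of determinants of periods of the graded
pieces of the limit, up to algebraic factors. -/
theorem LimFam.det_periods {S : Str} {k : ℕ} {T : Fin k → Str} (V : LimFam S T) {K : Type}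
    [Field K] [NumberField K] (φ : Act K S) (h : V.Flat φ) :
    ∃ ψ : ∀ j, Act K (T j), (∀ j τ, eigenpart (ψ j) τ = (eigenpart φ τ).map (V.gr j)) ∧
      ∀ τ z, IsFactorPeriod φ τ z →
        ∃ z' : Fin k → ℂ, (∀ j, IsFactorPeriod (ψ j) τ (z' j)) ∧ Sim z (∏ j, z' j) := by
  obtain ⟨ψ, h1, -, h3⟩ := V.exists_op_gr φ (fun a => (h.1 a).1) fun a => (h.1 a).2
  exact ⟨ψ, h3, fun τ z hz =>
    V.factor_period φ (fun a => (h.1 a).1) (fun a => (h.1 a).2) ψ h1 h3 τ hz⟩

/-- The relation for the simple substructures of a structure whose central actions are flat. -/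
theorem detFor_of_flatL {C : Str → Prop} (he : ∃ d, LiesIn e d)
    (h₀ : TriplesFor (Gen fun T => Nonempty (Pol T) ∧ C T) e) {S : Str} (P : Pol S)
    (h : FlatL C S e) : DetFor (fun R => R = S) e := by
  intro K _ _ i him hG hc S' hS' M hM ι hι
  subst hS'
  obtain ⟨κ, hκ, hiso⟩ := exists_isot P hM ι hι
  obtain ⟨φ, hφ, k, T, hT, V, hV⟩ := h K i him hG hc κ hκ
  have hφa : ∀ a, IsHom S' S' (φ a) := fun a => (hV.1 a).1
  obtain ⟨ψ, N, κ', hψ, heig, hN, hκ', hdet, htype⟩ := V.exists_gr φ hV
  have hex' : ∃ d, LiesIn (e.comp i) d := by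
    obtain ⟨d, hd⟩ := he
    exact ⟨d, hd.1, fun x => hd.2 (i x)⟩
  have hrel : FactorRelation φ (e.comp i) := by
    refine factorRelation_of_prod hex' him φ κ' hN hκ' htype (fun τ z hz => ?_) fun j =>
      detRelation_of_triples (C₀ := fun T => Nonempty (Pol T) ∧ C T) (fun T hT => hT.1) he h₀ i
        (hT j) (hN j) (κ' j) (hκ' j)
    obtain ⟨z', h1, h2⟩ := V.factor_period φ hφa (fun a => (hV.1 a).2) ψ hψ heig τ hz
    exact ⟨z', fun j => hdet j τ _ (h1 j), h2⟩
  obtain ⟨M', ι', hM', hne', hι', heig', -, hcx', hact'⟩ := exists_sub φ hφa hφ.1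
  refine rel_of_restriction hM ι hι hκ hiso hφ hM' hι' hcx' hact' ?_
  intro d _ hd ε hε l τ hτ z hz
  refine hrel d hd ε (fun l' τ' hτ' => ?_) l τ hτ z
    (factorPeriod_of hM'.le (fun τ => (heig' τ).symm) hz)
  rw [factorType_eq fun τ => (heig' τ).symm]
  exact hε l' τ' hτ'

/-- The Gross-Deligne relation holds for all admissible triples in the structures reached from
`C₀` by degenerating families over curves if and only if it holds for the determinants of the
central actions on the members of `C₀`. -/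
theorem reachedL_iff (hB : ∀ S, C₀ S → Nonempty (Pol S)) (he : ∃ d, LiesIn e d) :
    (∀ R, ReachedL C₀ e R → ∀ A : Adm R F, Relation A e) ↔ CentralFor C₀ e := by
  constructor
  · intro h
    refine central_of_triples hB he fun R hR A => h R ?_ A
    intro C h1 _ h3 _
    exact h3 R (Gen.mono_of (fun S hS => Gen.base S (h1 S hS)) hR)
  · intro h R hR A
    have hD := detFor_of_central hB h
    let C : Str → Prop := fun S => Nonempty (Pol S) ∧ DetFor (fun R => R = S) e
    have hP : ∀ S, C S → Nonempty (Pol S) := fun S hS => hS.1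
    have hC : DetFor C e := fun K _ _ i him hG hc S hS M hM ι hι =>
      hS.2 K i him hG hc S rfl M hM ι hι
    have hT : TriplesFor (Gen C) e := fun R hR A => det_suffices hP e he hC hR A
    refine hT R (hR (Gen C) ?_ ?_ ?_ ?_) A
    · intro S h1
      refine Gen.base S ⟨hB S h1, ?_⟩
      intro K _ _ i him hG hc S' hS' M hM ι hι
      exact hD K i him hG hc S' (by rw [hS']; exact h1) M hM ι hι
    · intro S h1 h2
      refine Gen.base S ⟨h1, ?_⟩
      exact triples_gamma (fun R => R = S) (fun R hR => hR ▸ h1) (fun R hR => hR ▸ h2) e he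
    · exact fun S hS => Gen.mono_of (fun _ h => h) hS
    · rintro S ⟨P⟩ h2
      refine Gen.base S ⟨⟨P⟩, ?_⟩
      refine detFor_of_flatL he ?_ P h2
      exact fun R hR A => hT R (Gen.mono_of (fun T hT => hT.2) hR) A

/-- The Gross-Deligne relation holds for all admissible triples in the structures reached from
`C₀` if and only if it holds for those in the structures generated by `C₀`. -/
theorem reachedL_iff_gen (hB : ∀ S, C₀ S → Nonempty (Pol S)) (he : ∃ d, LiesIn e d) :
    (∀ R, ReachedL C₀ e R → ∀ A : Adm R F, Relation A e) ↔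
      ∀ R, Gen C₀ R → ∀ A : Adm R F, Relation A e := by
  constructor
  · intro h R hR A
    refine h R ?_ A
    intro C h1 _ h3 _
    exact h3 R (Gen.mono_of (fun S hS => Gen.base S (h1 S hS)) hR)
  · exact fun h => (reachedL_iff hB he).2 (central_of_triples hB he h)

omit [NumberField F] in
/-- The class reached from `C₀` contains the constant parts of variations with a limit in the
class. -/
theorem reachedL_const {S : Str} {k : ℕ} {T : Fin k → Str} (V : LimFam S T) {j : Fin k}
    (P : Pol (T j)) (hT : ReachedL C₀ e (T j)) (hwt : S.wt = (T j).wt) {E : Str}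
    {f : E.W →ₗ[ℂ] S.W} (hf : IsHom E S f) (hi : Function.Injective f)
    (hc : ∀ x, V.Const j (f x)) (hH : ∀ p, ∀ x ∈ E.hodge p, V.gr j (f x) ∈ (T j).hodge p) :
    ReachedL C₀ e E := by
  have h : IsHom E (T j) (V.gr j ∘ₗ f) := by
    refine ⟨hf.wt.trans hwt, fun x hx => ?_, fun x hx => ?_, hH⟩
    · exact (V.gr_B _).1 (hf.betti x hx) j
    · exact (V.gr_D _).2 (V.flat_vec (hf.deRham x hx) (hc x).1 (hc x).2.1) j
  have hinj : Function.Injective (V.gr j ∘ₗ f) := by
    rw [← LinearMap.ker_eq_bot, LinearMap.ker_eq_bot']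
    intro x hx
    apply hi
    obtain ⟨y, -, hy⟩ := V.gr_bij fun _ => 0
    rw [map_zero, hy (f x) fun j' => ?_, hy 0 fun j' => map_zero _]
    by_cases hj : j' = j
    · subst hj
      exact hx
    · exact (hc x).2.2 j' hj
  intro C h1 h2 h3 h4
  exact h3 E (gen_of_inj P (Gen.base _ (hT C h1 h2 h3 h4)) h hinj)

end GD
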