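import Pool.Agent.H26.LM.Sub
import Pool.Agent.H26.FC.Kron
import Pool.Agent.H26.FC.Frame

/-!
# Periods of the eigenparts at the fibre and the limit
-/

noncomputable section

namespace GD

open Complex NumberField Topology

/-- A unipotent matrix has determinant one. -/
theorem det_unip {m : ℕ} {R : Matrix (Fin m) (Fin m) ℂ} (h : IsNilpotent (R - 1)) :
    R.det = 1 := by
  have h1 : (R - 1).charpoly = Polynomial.X ^ m := by
    have h2 := Matrix.isNilpotent_charpoly_sub_pow_of_isNilpotent h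
    rw [isNilpotent_iff_eq_zero, sub_eq_zero] at h2
    simpa using h2
  have h2 := congrArg (Polynomial.eval (-1)) h1
  rw [Matrix.eval_charpoly, Polynomial.eval_pow, Polynomial.eval_X] at h2
  have h3 : Matrix.scalar (Fin m) (-1 : ℂ) - (R - 1) = (-1 : ℂ) • R := by
    ext i j
    simp only [Matrix.scalar_apply, Matrix.sub_apply, Matrix.smul_apply, Matrix.diagonal_apply,
      Matrix.one_apply, smul_eq_mul]
    split_ifs <;> ring
  rw [h3, Matrix.det_smul, Fintype.card_fin] at h2
  exact mul_left_cancel₀ (pow_ne_zero m (by norm_num : (-1 : ℂ) ≠ 0)) (h2.trans (mul_one _).symm)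

/-- A unipotent operator has determinant one on a stable subspace. -/
theorem det_of_unip {W : Type} [AddCommGroup W] [Module ℂ W] {m : ℕ} {v : Fin m → W}
    (hv : LinearIndependent ℂ v) {G : Module.End ℂ W} (hG : IsNilpotent (G - 1))
    {R : Matrix (Fin m) (Fin m) ℂ} (hR : ∀ j, G (v j) = ∑ k, R j k • v k) : R.det = 1 := by
  obtain ⟨n, hn⟩ := hG
  have h1 : ∀ j, (G - 1) (v j) = ∑ k, (R - 1) j k • v k := by
    intro j
    have h2 : ∑ k, (1 : Matrix (Fin m) (Fin m) ℂ) j k • v k = v j := by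
      rw [Finset.sum_eq_single j]
      · rw [Matrix.one_apply_eq, one_smul]
      · intro k _ hk
        rw [Matrix.one_apply_ne (Ne.symm hk), zero_smul]
      · simp
    simp only [Matrix.sub_apply, sub_smul, Finset.sum_sub_distrib, h2, ← hR]
    rfl
  have h2 : ∀ (p : ℕ) (j : Fin m), ((G - 1) ^ p) (v j) = ∑ k, ((R - 1) ^ p) j k • v k := by
    intro p
    induction p with
    | zero =>
      intro j
      rw [pow_zero, pow_zero, Finset.sum_eq_single j]
      · rw [Matrix.one_apply_eq, one_smul]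
        rfl
      · intro k _ hk
        rw [Matrix.one_apply_ne (Ne.symm hk), zero_smul]
      · simp
    | succ p ih =>
      intro j
      rw [pow_succ, pow_succ', Module.End.mul_apply, h1, map_sum]
      simp only [map_smul, ih, Matrix.mul_apply, Finset.smul_sum, Finset.sum_smul, smul_smul]
      exact Finset.sum_comm
  refine det_unip ⟨n, ?_⟩
  ext i j
  have h3 : ∑ k, ((R - 1) ^ n) i k • v k = ∑ k, (0 : Fin m → ℂ) k • v k := by
    rw [← h2, hn]
    simp
  exact congrFun (coeff_unique hv h3) j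

/-- A regular function over the complex numbers which satisfies a homogeneous linear equation of
first order over the algebraic numbers has an algebraic quotient of a value and a limit. -/
theorem Curve.algebraic_lim (B : Curve) {h : ℂ → ℂ} {k : ℕ} {c : Fin k → ℂ} {a : Fin k → ℂ → ℂ}
    (ha : ∀ j, a j ∈ B.A) (hc : ∀ z ∈ B.U, h z = ∑ j, c j * a j z) {p q : ℂ → ℂ} (hp : p ∈ B.A)
    (hq : q ∈ B.A)
    (hode : ∀ z ∈ B.U, q z ≠ 0 → HasDerivAt h (deriv B.x z * (p z / q z) * h z) z)
    {s : ℂ} (hs : s ∈ B.U ∧ B.x s ∈ Qbar) (hqs : q s ≠ 0) (hhs : h s ≠ 0) {l : Filter ℂ}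
    [l.NeBot] (hU : B.U ∈ l) (hl : ∀ a ∈ B.A, ∀ c, Filter.Tendsto a l (nhds c) → c ∈ Qbar)
    {h₀ : ℂ} (hlim : Filter.Tendsto h l (nhds h₀)) (h0 : h₀ ≠ 0) :
    IsAlgebraic ℚ (h s / h₀) := by
  obtain ⟨n', c', a', hc', ha', hca⟩ := B.exists_indep c ha
  have hh : ∀ z ∈ B.U, h z = ∑ i, c' i * a' i z := fun z hz => (hc z hz).trans (hca z)
  choose b hbA hb using fun i => B.der (a' i) (ha' i)
  -- the equation for the coefficients
  have key : ∀ i, ∀ z ∈ B.U, (q * (q * b i - p * a' i)) z = 0 := by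
    refine fun i => B.disjoint hc' (fun i => B.A.mul_mem hq
      (B.A.sub_mem (B.A.mul_mem hq (hbA i)) (B.A.mul_mem hp (ha' i)))) ?_ i
    intro z hz
    by_cases hqz : q z = 0
    · refine Finset.sum_eq_zero fun i _ => ?_
      rw [Pi.mul_apply, hqz, zero_mul, mul_zero]
    have h1 : HasDerivAt h (∑ i, c' i * (deriv B.x z * b i z)) z := by
      have h2 : HasDerivAt (fun y => ∑ i, c' i * a' i y)
          (∑ i, c' i * (deriv B.x z * b i z)) z := by
        refine HasDerivAt.fun_sum fun i _ => ?_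
        have h3 := (B.hasDerivAt (ha' i) hz).const_mul (c' i)
        rwa [hb i z hz] at h3
      refine h2.congr_of_eventuallyEq ?_
      filter_upwards [B.isOpen.mem_nhds hz] with y hy
      exact hh y hy
    have h4 := h1.unique (hode z hz hqz)
    have hx := B.etale z hz
    have h5 : deriv B.x z * (∑ i, c' i * (q z * b i z - p z * a' i z)) = 0 := by
      have e1 : deriv B.x z * (∑ i, c' i * (q z * b i z - p z * a' i z)) =
          q z * (∑ i, c' i * (deriv B.x z * b i z)) -
            deriv B.x z * p z * ∑ i, c' i * a' i z := by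
        rw [Finset.mul_sum, Finset.mul_sum, Finset.mul_sum, ← Finset.sum_sub_distrib]
        exact Finset.sum_congr rfl fun i _ => by ring
      rw [e1, h4, hh z hz]
      field_simp
      ring
    have h6 := (mul_eq_zero.1 h5).resolve_left hx
    have e2 : ∑ i, c' i * (q * (q * b i - p * a' i)) z =
        q z * ∑ i, c' i * (q z * b i z - p z * a' i z) := by
      rw [Finset.mul_sum]
      refine Finset.sum_congr rfl fun i _ => ?_
      simp only [Pi.mul_apply, Pi.sub_apply]
      ring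
    rw [e2, h6, mul_zero]
  -- some coefficient does not vanish at `s`
  have hex : ∃ i, a' i s ≠ 0 := by
    by_contra hcon
    push Not at hcon
    apply hhs
    rw [hh s hs.1]
    exact Finset.sum_eq_zero fun i _ => by rw [hcon i, mul_zero]
  obtain ⟨i, hi⟩ := hex
  have hhan : AnalyticOnNhd ℂ (fun z => ∑ i, c' i * a' i z) B.U := by
    refine Finset.analyticOnNhd_fun_sum _ fun i _ => ?_
    exact analyticOnNhd_const.mul (B.analytic (ha' i))
  -- near `s`
  have hcont : ContinuousAt h s := (hode s hs.1 hqs).continuousAt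
  have hnhd : {z | z ∈ B.U ∧ q z ≠ 0 ∧ h z ≠ 0} ∈ 𝓝 s := by
    filter_upwards [B.isOpen.mem_nhds hs.1, (B.continuousAt hq hs.1).eventually_ne hqs,
      hcont.eventually_ne hhs] with z h1 h2 h3
    exact ⟨h1, h2, h3⟩
  obtain ⟨ε, hε, hball⟩ := Metric.mem_nhds_iff.1 hnhd
  have hder : ∀ z ∈ Metric.ball s ε, HasDerivAt (fun y => a' i y / h y) 0 z := by
    intro z hz
    obtain ⟨hzU, hqz, hhz⟩ := hball hz
    have h1 := (B.hasDerivAt (ha' i) hzU).fun_div (hode z hzU hqz) hhz
    refine h1.congr_deriv ?_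
    rw [hb i z hzU]
    have h2 := key i z hzU
    simp only [Pi.mul_apply, Pi.sub_apply] at h2
    have h3 := (mul_eq_zero.1 h2).resolve_left hqz
    rw [sub_eq_zero] at h3
    rw [div_eq_zero_iff]
    left
    have h4 : b i z = p z * a' i z / q z := by
      rw [eq_div_iff hqz, ← h3]
      ring
    rw [h4]
    field_simp
    ring
  have hconst : ∀ z ∈ Metric.ball s ε, a' i z / h z = a' i s / h s := by
    intro z hz
    exact IsOpen.is_const_of_deriv_eq_zero (f := fun y => a' i y / h y)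
      Metric.isOpen_ball (convex_ball s ε).isPreconnected
      (fun y hy => (hder y hy).differentiableAt.differentiableWithinAt)
      (fun y hy => (hder y hy).deriv) hz (Metric.mem_ball_self hε)
  have heq : Set.EqOn (a' i) (fun z => a' i s / h s * ∑ i, c' i * a' i z) B.U := by
    refine (B.analytic (ha' i)).eqOn_of_preconnected_of_eventuallyEq
      (analyticOnNhd_const.mul hhan) B.conn hs.1 ?_
    filter_upwards [Metric.ball_mem_nhds s hε] with z hz
    obtain ⟨hzU, hqz, hhz⟩ := hball hz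
    rw [← hh z hzU, ← hconst z hz, div_mul_cancel₀ _ hhz]
  have hta : Filter.Tendsto (a' i) l (nhds (a' i s / h s * h₀)) := by
    refine (hlim.const_mul (a' i s / h s)).congr' ?_
    filter_upwards [hU] with z hz
    have h1 := heq hz
    simp only at h1
    rw [h1, ← hh z hz]
  have hc0 : a' i s / h s * h₀ ≠ 0 := mul_ne_zero (div_ne_zero hi hhs) h0
  have h1 : h s / h₀ = a' i s / (a' i s / h s * h₀) := by
    field_simp
  rw [h1, div_eq_mul_inv]
  exact (alg_of_mem (B.val _ (ha' i) s hs.1 hs.2)).mul (alg_of_mem (hl _ (ha' i) _ hta)).inv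

/-- Operators which preserve the lattice, the polarisation and the parts of an action have
determinants of bounded order on these parts. -/
theorem exists_order' {S : Str} {K : Type} [Field K] [NumberField K] (P : Pol S)
    (φ : K →ₙ+* Module.End ℂ S.W) (hφ : ∀ a, IsHom S S (φ a)) :
    ∃ N : ℕ, 0 < N ∧ ∀ (γ : S.W →ₗ[ℂ] S.W) (Λ : Submodule ℤ S.W), Λ.FG → (∀ w ∈ Λ, w ∈ S.B) →
      (∀ w ∈ S.B, ∃ k : ℕ, 0 < k ∧ k • w ∈ Λ) → (∀ w ∈ Λ, γ w ∈ Λ) →
      (∀ v w, P.E (γ v) (γ w) = P.E v w) →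
      (∀ τ, ∀ w ∈ eigenpart φ τ, γ w ∈ eigenpart φ τ) →
      ∀ (τ : K →+* ℂ) (m : ℕ) (v : Fin m → S.W) (R : Matrix (Fin m) (Fin m) ℂ),
        LinearIndependent ℂ v → Submodule.span ℂ (Set.range v) = eigenpart φ τ →
        (∀ j, γ (v j) = ∑ k, R j k • v k) → R.det ^ N = 1 := by
  by_cases h1 : φ 1 = 0
  · refine ⟨1, one_pos, ?_⟩
    intro γ Λ _ _ _ _ _ _ τ m v R hv hvL _
    have h2 : eigenpart φ τ = ⊥ := by
      rw [Submodule.eq_bot_iff]
      intro w hw
      rw [mem_eigenpart] at hw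
      have h3 := hw 1
      rw [h1, map_one, one_smul, LinearMap.zero_apply] at h3
      exact h3.symm
    have h3 := finrank_span_eq_card hv
    rw [hvL, h2, finrank_bot, Fintype.card_fin] at h3
    subst h3
    rw [Matrix.det_isEmpty, one_pow]
  · obtain ⟨M, ι, hM, -, hι, heig, -, -, -⟩ := exists_sub φ hφ h1
    obtain ⟨N, hN, h⟩ := exists_order P hM ι hι
    refine ⟨N, hN, ?_⟩
    intro γ Λ a1 a2 a3 a4 a5 a6 τ m v R hv hvL hR
    refine h γ Λ a1 a2 a3 a4 a5 (fun τ => ?_) τ m v R hv (hvL.trans (heig τ).symm) hR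
    rw [heig]
    exact a6 τ

variable {S : Str} {k : ℕ} {T : Fin k → Str} (V : LimFam S T)

/-- Determinants of periods of the eigenparts of a flat action at the fibre `S` and the limit. -/
theorem LimFam.period {K : Type} [Field K] [NumberField K] (φ : K →ₙ+* Module.End ℂ S.W)
    (hφ : ∀ a, IsHom S S (φ a)) (hr : ∀ a, V.Resp (φ a)) (τ : K →+* ℂ) {m : ℕ} {v : Fin m → S.W}
    (hv : LinearIndependent ℂ v) (hvL : Submodule.span ℂ (Set.range v) = eigenpart φ τ) :
    ∃ (a b : Fin m → S.W) (X Y : Matrix (Fin m) (Fin m) ℂ),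
      (LinearIndependent ℂ a ∧ Submodule.span ℂ (Set.range a) = eigenpart φ τ ∧
        (∀ i, a i ∈ S.D) ∧ ∀ i, a i = ∑ j, X i j • v j) ∧
      (LinearIndependent ℂ b ∧ Submodule.span ℂ (Set.range b) = eigenpart φ τ ∧
        (∀ i j, V.gr j (b i) ∈ (T j).D) ∧ ∀ i, b i = ∑ j, Y i j • v j) ∧
      Sim X.det Y.det := by
  obtain ⟨P, hP⟩ := V.H.polarised
  obtain ⟨Λ, hΛ1, hΛ2, hΛ3, hΛ4⟩ := V.H.lattice
  obtain ⟨N, hN, hord⟩ := exists_order' P φ hφ
  obtain ⟨m', c₀, r₀, cl, rl, hc₀, hr₀, hrs, hrl, htr, htc, hfr, hlli, hlsp⟩ :=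
    V.limSub_of_resp φ hφ hr τ
  have hNe : V.l.NeBot := V.l_U.2
  have hm : m' = m := by
    have h3 := finrank_span_eq_card (hfr V.s V.hs.1 hrs).1
    rw [(hfr V.s V.hs.1 hrs).2, ← hvL, finrank_span_eq_card hv, Fintype.card_fin,
      Fintype.card_fin] at h3
    exact h3.symm
  subst hm
  let r : V.B.A := ⟨r₀, hr₀⟩
  let c : Matrix (Fin m') (Fin V.H.n) V.B.A := fun i j => r * ⟨c₀ i j, hc₀ i j⟩
  have hcomb : ∀ z i, V.H.comb c i z = r₀ z • ∑ j, c₀ i j z • V.H.ω j z := by
    intro z i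
    rw [Variation.comb, Finset.smul_sum]
    refine Finset.sum_congr rfl fun j _ => ?_
    rw [smul_smul]
    rfl
  have hL : ∀ z ∈ V.B.U, ∀ i, V.H.comb c i z ∈ eigenpart φ τ := by
    intro z hz i
    rw [hcomb]
    by_cases h0 : r₀ z = 0
    · rw [h0, zero_smul]
      exact zero_mem _
    · rw [← (hfr z hz h0).2]
      exact Submodule.smul_mem _ _ (Submodule.subset_span ⟨i, rfl⟩)
  have hscale : ∀ {w : Fin m' → S.W} {x : ℂ}, x ≠ 0 → LinearIndependent ℂ w →
      Submodule.span ℂ (Set.range w) = eigenpart φ τ → (LinearIndependent ℂ fun i => x • w i) ∧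
        Submodule.span ℂ (Set.range fun i => x • w i) = eigenpart φ τ := by
    intro w x hx hwl hws
    have h2 : LinearIndependent ℂ fun i => x • w i := hwl.units_smul fun _ => Units.mk0 _ hx
    refine ⟨h2, ?_⟩
    apply Submodule.eq_of_le_of_finrank_eq
    · rw [Submodule.span_le]
      rintro _ ⟨i, rfl⟩
      change x • w i ∈ eigenpart φ τ
      rw [← hws]
      exact Submodule.smul_mem _ _ (Submodule.subset_span (Set.mem_range_self i))
    · rw [finrank_span_eq_card h2, ← hws, finrank_span_eq_card hwl]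
  have hbas : ∀ z ∈ V.B.U, r₀ z ≠ 0 → (LinearIndependent ℂ fun i => V.H.comb c i z) ∧
      Submodule.span ℂ (Set.range fun i => V.H.comb c i z) = eigenpart φ τ := by
    intro z hz h0
    have h1 : (fun i => V.H.comb c i z) = fun i => r₀ z • ∑ j, c₀ i j z • V.H.ω j z :=
      funext fun i => hcomb z i
    rw [h1]
    exact hscale h0 (hfr z hz h0).1 (hfr z hz h0).2
  obtain ⟨g, hg⟩ := exists_coord hv
  rw [hvL] at hg
  obtain ⟨e, he⟩ := V.H.exists_der c
  have heL := V.H.conn_mem he hL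
  -- a minor which does not vanish at `s`
  have hminor : ∃ J : Fin m' → Fin V.H.n, V.B.ev V.s (c.submatrix id J).det ≠ 0 := by
    have h1 := (hbas V.s V.hs.1 hrs).1
    have h2 : LinearIndependent ℂ fun i => (c.map (V.B.ev V.s) : Matrix _ _ ℂ) i := by
      rw [Fintype.linearIndependent_iff] at h1 ⊢
      intro u hu i
      refine h1 u ?_ i
      have h3 : ∀ j, ∑ i, u i * V.B.ev V.s (c i j) = 0 := by
        intro j
        have h4 := congrFun hu j
        rw [Finset.sum_apply] at h4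
        exact h4
      simp only [Variation.comb, Finset.smul_sum, smul_smul]
      rw [Finset.sum_comm]
      refine Finset.sum_eq_zero fun j _ => ?_
      rw [← Finset.sum_smul, h3, zero_smul]
    obtain ⟨J, hJ⟩ := exists_minor _ h2
    refine ⟨J, fun h0 => hJ ?_⟩
    have h3 : (c.map (V.B.ev V.s) : Matrix _ _ ℂ).submatrix id J =
        (V.B.ev V.s).mapMatrix (c.submatrix id J) := rfl
    rw [h3, ← AlgHom.map_det, h0]
  obtain ⟨J, hJ⟩ := hminor
  let δ : ℂ → ℂ := fun y => (Matrix.of fun i j => g (V.H.comb c i y) j).det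
  have hδ0 : ∀ z ∈ V.B.U, r₀ z ≠ 0 → δ z ≠ 0 := fun z hz h0 =>
    det_ne_of_basis (hbas z hz h0).1 fun i => hg _ (hL z hz i)
  have hstab : ∀ g' ∈ V.H.deck, ∀ σ, ∀ w ∈ eigenpart φ σ, g'.act w ∈ eigenpart φ σ :=
    fun g' hg' σ => eigenpart_stable φ σ fun a w => (hr a w).1 g' hg'
  -- determinants of images of frames
  have hcoef : ∀ {G : S.W →ₗ[ℂ] S.W}, (∀ w ∈ eigenpart φ τ, G w ∈ eigenpart φ τ) →
      ∃ R : Matrix (Fin m') (Fin m') ℂ, (∀ j, G (v j) = ∑ k, R j k • v k) ∧
        ∀ w : Fin m' → S.W, (∀ i, w i ∈ eigenpart φ τ) →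
          (Matrix.of fun i j => g (G (w i)) j) = (Matrix.of fun i j => g (w i) j) * R := by
    intro G hG
    have h1 : ∀ j, ∃ R : Fin m' → ℂ, ∑ k, R k • v k = G (v j) := by
      intro j
      have h2 : G (v j) ∈ Submodule.span ℂ (Set.range v) := by
        rw [hvL]
        refine hG _ ?_
        rw [← hvL]
        exact Submodule.subset_span (Set.mem_range_self j)
      exact (Submodule.mem_span_range_iff_exists_fun ℂ).1 h2
    choose R hR using h1
    refine ⟨Matrix.of R, fun j => (hR j).symm, fun w hw => ?_⟩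
    ext1 i
    have h5 : ∑ k, g (G (w i)) k • v k =
        ∑ k, ((Matrix.of fun i j => g (w i) j) * Matrix.of R) i k • v k := by
      rw [← hg _ (hG _ (hw i))]
      conv_lhs => rw [hg _ (hw i)]
      rw [map_sum]
      simp only [map_smul, ← hR, Finset.smul_sum, smul_smul, Matrix.mul_apply,
        Finset.sum_smul]
      exact Finset.sum_comm
    exact congrFun (coeff_unique hv h5)
  -- the monodromy of the determinant
  have hinv : ∀ g' ∈ V.H.deck, ∀ z ∈ V.B.U, δ (g'.move z) ^ N = δ z ^ N := by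
    intro g' hg' z hz
    obtain ⟨hgz, hgA⟩ := V.H.deck_U g' hg' z hz
    obtain ⟨R, hR, hRw⟩ := hcoef (hstab g' hg' τ)
    have h2 := hord g'.act Λ hΛ1 hΛ2 hΛ3 (hΛ4 g' hg') (hP g' hg') (hstab g' hg') τ m' v R hv
      hvL hR
    have h3 : (Matrix.of fun i j => g (V.H.comb c i (g'.move z)) j) =
        (Matrix.of fun i j => g (V.H.comb c i z) j) * R := by
      rw [← hRw _ (hL z hz)]
      ext i j
      have h4 : V.H.comb c i (g'.move z) = g'.act (V.H.comb c i z) := by
        rw [Variation.comb, Variation.comb, map_sum]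
        refine Finset.sum_congr rfl fun j _ => ?_
        rw [map_smul, V.H.monodromy g' hg' z hz j, V.B.ev_apply, V.B.ev_apply,
          hgA _ (c i j).2]
      change g (V.H.comb c i (g'.move z)) j = g (g'.act (V.H.comb c i z)) j
      rw [h4]
    change (Matrix.of fun i j => g (V.H.comb c i (g'.move z)) j).det ^ N =
      (Matrix.of fun i j => g (V.H.comb c i z) j).det ^ N
    rw [h3, Matrix.det_mul, mul_pow, h2, mul_one]
  have hmem : (fun z => δ z ^ N) ∈ V.B.periodRing V.H.ω := pow_mem (V.H.det_mem c g) N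
  obtain ⟨k, cc, aa, haa, hsum⟩ := V.H.regular _ hmem hinv
  let D : V.B.A := (c.submatrix id J).det
  let tr : V.B.A := (e.submatrix id J * (c.submatrix id J).adjugate).trace
  have hode : ∀ z ∈ V.B.U, ((r * D : V.B.A) : ℂ → ℂ) z ≠ 0 → HasDerivAt (fun z => δ z ^ N)
      (deriv V.B.x z * ((((N : V.B.A) * (r * tr) : V.B.A) : ℂ → ℂ) z /
        ((r * D : V.B.A) : ℂ → ℂ) z) * (fun z => δ z ^ N) z) z := by
    intro z hz hq
    have hq' : V.B.ev z (r * D) ≠ 0 := hq
    rw [map_mul] at hq'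
    have hr0 : V.B.ev z r ≠ 0 := left_ne_zero_of_mul hq'
    have hD0 : V.B.ev z D ≠ 0 := right_ne_zero_of_mul hq'
    have h1 := (V.H.hasDerivAt_det hz (fun f i => he f z hz i) (heL z hz) (hbas z hz hr0).2 J
      hD0 g).fun_pow N
    refine h1.congr_deriv ?_
    change (N : ℂ) * δ z ^ (N - 1) * (deriv V.B.x z * (V.B.ev z tr / V.B.ev z D) * δ z) =
      deriv V.B.x z * (V.B.ev z ((N : V.B.A) * (r * tr)) / V.B.ev z (r * D)) * δ z ^ N
    rw [map_mul, map_mul, map_mul, map_natCast]
    obtain ⟨N', rfl⟩ := Nat.exists_eq_succ_of_ne_zero hN.ne'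
    rw [Nat.succ_sub_one, pow_succ]
    field_simp
  -- the limit
  let b : Fin m' → S.W := fun i => rl • ∑ j, cl i j • V.ω j
  have hb := hscale hrl hlli hlsp
  have hbL : ∀ i, b i ∈ eigenpart φ τ := fun i => by
    rw [← hb.2]
    exact Submodule.subset_span ⟨i, rfl⟩
  have hlimδ : Filter.Tendsto δ V.l (𝓝 (Matrix.of fun i j => g (b i) j).det) := by
    have h1 : Filter.Tendsto (fun z => (Matrix.of fun i j => g (V.u z (V.H.comb c i z)) j))
        V.l (𝓝 (Matrix.of fun i j => g (b i) j)) := by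
      refine tendsto_pi_nhds.2 fun i => tendsto_pi_nhds.2 fun j => ?_
      have h2 : (fun z => (Matrix.of fun i j => g (V.u z (V.H.comb c i z)) j) i j) =
          fun z => r₀ z * ∑ k, c₀ i k z * ((LinearMap.proj j).comp g) (V.u z (V.H.ω k z)) := by
        funext z
        change ((LinearMap.proj j).comp g) (V.u z (V.H.comb c i z)) = _
        rw [hcomb, map_smul, map_smul, map_sum, map_sum, smul_eq_mul]
        congr 1
        refine Finset.sum_congr rfl fun k _ => ?_
        rw [map_smul, map_smul, smul_eq_mul]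
      have h3 : (Matrix.of fun i j => g (b i) j) i j =
          rl * ∑ k, cl i k * ((LinearMap.proj j).comp g) (V.ω k) := by
        change ((LinearMap.proj j).comp g) (rl • ∑ k, cl i k • V.ω k) = _
        rw [map_smul, map_sum, smul_eq_mul]
        congr 1
        refine Finset.sum_congr rfl fun k _ => ?_
        rw [map_smul, smul_eq_mul]
      rw [h2, h3]
      exact htr.mul (tendsto_finsetSum _ fun k _ => (htc i k).mul (V.lim _ k))
    refine ((Continuous.matrix_det continuous_id).tendsto _ |>.comp h1).congr' ?_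
    filter_upwards [V.l_U.1] with z hz
    have hu : ∀ w ∈ eigenpart φ τ, V.u z w ∈ eigenpart φ τ :=
      eigenpart_stable φ τ fun a w => (hr a w).2.1 z
    obtain ⟨R, hR, hRw⟩ := hcoef hu
    change (Matrix.of fun i j => g (V.u z (V.H.comb c i z)) j).det =
      (Matrix.of fun i j => g (V.H.comb c i z) j).det
    rw [hRw _ (hL z hz), Matrix.det_mul, det_of_unip hv (V.unip z) hR, mul_one]
  have hY0 : (Matrix.of fun i j => g (b i) j).det ≠ 0 :=
    det_ne_of_basis hb.1 fun i => hg _ (hbL i)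
  have halg := V.B.algebraic_lim haa hsum (p := (((N : V.B.A) * (r * tr) : V.B.A) : ℂ → ℂ))
    (q := ((r * D : V.B.A) : ℂ → ℂ)) (Subtype.prop _) (Subtype.prop _) hode V.hs
    (by
      change V.B.ev V.s (r * D) ≠ 0
      rw [map_mul]
      exact mul_ne_zero hrs hJ)
    (pow_ne_zero _ (hδ0 _ V.hs.1 hrs)) V.l_U.1 V.l_val (hlimδ.pow N) (pow_ne_zero _ hY0)
  refine ⟨fun i => V.H.comb c i V.s, b,
    Matrix.of fun i j => g (V.H.comb c i V.s) j, Matrix.of fun i j => g (b i) j,
    ⟨(hbas _ V.hs.1 hrs).1, (hbas _ V.hs.1 hrs).2, fun i => ?_, fun i => hg _ (hL _ V.hs.1 i)⟩,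
    ⟨hb.1, hb.2, fun i => ?_, fun i => hg _ (hbL i)⟩, hδ0 _ V.hs.1 hrs, hY0, ?_⟩
  · rw [V.dR_s]
    refine Submodule.sum_mem _ fun j _ => ?_
    have h1 : V.B.ev V.s (c i j) ∈ Qbar := V.B.val _ (c i j).2 _ V.hs.1 V.hs.2
    exact Submodule.smul_mem _ (⟨_, h1⟩ : Qbar) (Submodule.subset_span (Set.mem_range_self j))
  · rw [V.gr_D]
    have h1 : b i = ∑ j, (rl * cl i j) • V.ω j := by
      change rl • ∑ j, cl i j • V.ω j = _
      rw [Finset.smul_sum]
      exact Finset.sum_congr rfl fun j _ => smul_smul _ _ _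
    rw [h1]
    refine Submodule.sum_mem _ fun j _ => ?_
    have h2 : rl * cl i j ∈ Qbar :=
      V.l_val _ (V.B.A.mul_mem hr₀ (hc₀ i j)) _ (htr.mul (htc i j))
    exact Submodule.smul_mem _ (⟨_, h2⟩ : Qbar) (Submodule.subset_span (Set.mem_range_self j))
  · refine IsAlgebraic.of_pow hN ?_
    rw [div_pow]
    exact halg

end GD
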