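import Pool.Agent.H26.LM.Basic
import Pool.Agent.H26.FC.Alg

/-!
# Frames of the eigenparts near the fibre and the limit
-/

noncomputable section

namespace GD

open Complex Module NumberField Filter Topology

section frames

open Matrix

variable {E : Type} [AddCommGroup E] [Module ℂ E] [FiniteDimensional ℂ E] {n m : ℕ}

/-- The matrix of an operator in a frame has a minor of the size of the rank. -/
private theorem sub_minor {w : Fin n → E} (hspan : Submodule.span ℂ (Set.range w) = ⊤)
    {π : E →ₗ[ℂ] E} {a : ℂ} (ha : a ≠ 0) {N : Matrix (Fin n) (Fin n) ℂ}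
    (hN : ∀ j, a • π (w j) = ∑ k, N j k • w k) (hm : finrank ℂ (LinearMap.range π) = m) :
    ∃ J K : Fin m → Fin n, (N.submatrix J K).det ≠ 0 := by
  have hs : Submodule.span ℂ (Set.range fun j => π (w j)) = LinearMap.range π := by
    have h1 : (Set.range fun j => π (w j)) = π '' Set.range w := by
      rw [← Set.range_comp]
      rfl
    rw [h1, ← Submodule.map_span, hspan, Submodule.map_top]
  obtain ⟨J, hJ⟩ := exists_sub_indep (fun j => π (w j)) (by rw [hs, hm])
  have h1 : LinearIndependent ℂ fun i : Fin m => fun k => N (J i) k := by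
    rw [Fintype.linearIndependent_iff] at hJ ⊢
    intro u hu
    refine hJ u ?_
    have h2 : a • ∑ i, u i • π (w (J i)) = 0 := by
      have h3 : ∀ i, a • u i • π (w (J i)) = ∑ k, (u i * N (J i) k) • w k := by
        intro i
        rw [smul_comm, hN, Finset.smul_sum]
        exact Finset.sum_congr rfl fun k _ => smul_smul _ _ _
      rw [Finset.smul_sum]
      simp only [h3]
      rw [Finset.sum_comm]
      refine Finset.sum_eq_zero fun k _ => ?_
      rw [← Finset.sum_smul]
      have h4 := congrFun hu k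
      rw [Finset.sum_apply] at h4
      have h5 : ∑ i, u i * N (J i) k = 0 := h4
      rw [h5, zero_smul]
    exact (smul_eq_zero.1 h2).resolve_left ha
  obtain ⟨K, hK⟩ := exists_minor (Matrix.of fun i k => N (J i) k) h1
  exact ⟨J, K, hK⟩

/-- The frame of the range of an operator which belongs to a minor. -/
private theorem sub_frame {w : Fin n → E} (hw : LinearIndependent ℂ w) {π : E →ₗ[ℂ] E} {a : ℂ}
    {N : Matrix (Fin n) (Fin n) ℂ} (hN : ∀ j, a • π (w j) = ∑ k, N j k • w k)
    (hm : finrank ℂ (LinearMap.range π) = m) {l r : Matrix (Fin m) (Fin n) ℤ}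
    (hd : (l.map (Int.cast : ℤ → ℂ) * N * (r.map (Int.cast : ℤ → ℂ))ᵀ).det ≠ 0) :
    (LinearIndependent ℂ fun i => ∑ k, (l.map (Int.cast : ℤ → ℂ) * N) i k • w k) ∧
      Submodule.span ℂ (Set.range fun i => ∑ k, (l.map (Int.cast : ℤ → ℂ) * N) i k • w k) =
        LinearMap.range π := by
  have hlin : LinearIndependent ℂ fun i => ∑ k, (l.map (Int.cast : ℤ → ℂ) * N) i k • w k := by
    rw [Fintype.linearIndependent_iff]
    intro u hu
    have h1 : ∑ k, (∑ i, u i * (l.map (Int.cast : ℤ → ℂ) * N) i k) • w k = 0 := by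
      rw [← hu]
      simp only [Finset.smul_sum, smul_smul, Finset.sum_smul]
      exact Finset.sum_comm
    have h2 := (Fintype.linearIndependent_iff.1 hw) _ h1
    have h3 : Matrix.vecMul u (l.map (Int.cast : ℤ → ℂ) * N) = 0 := by
      funext k
      exact h2 k
    have h5 : Matrix.vecMul u (l.map (Int.cast : ℤ → ℂ) * N *
        (r.map (Int.cast : ℤ → ℂ))ᵀ) = 0 := by
      rw [← Matrix.vecMul_vecMul, h3, Matrix.zero_vecMul]
    by_contra hcon
    push Not at hcon
    obtain ⟨i, hi⟩ := hcon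
    exact hd (Matrix.exists_vecMul_eq_zero_iff.1 ⟨u, fun h0 => hi (congrFun h0 i), h5⟩)
  refine ⟨hlin, ?_⟩
  apply Submodule.eq_of_le_of_finrank_eq
  · rw [Submodule.span_le]
    rintro _ ⟨i, rfl⟩
    have h1 : ∑ k, (l.map (Int.cast : ℤ → ℂ) * N) i k • w k =
        a • π (∑ j, (l i j : ℂ) • w j) := by
      rw [map_sum, Finset.smul_sum]
      have h2 : ∀ j, a • π ((l i j : ℂ) • w j) = ∑ k, ((l i j : ℂ) * N j k) • w k := by
        intro j
        rw [map_smul, smul_comm, hN, Finset.smul_sum]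
        exact Finset.sum_congr rfl fun k _ => smul_smul _ _ _
      simp only [h2]
      rw [Finset.sum_comm]
      refine Finset.sum_congr rfl fun k _ => ?_
      rw [← Finset.sum_smul, Matrix.mul_apply]
      rfl
    change ∑ k, (l.map (Int.cast : ℤ → ℂ) * N) i k • w k ∈ LinearMap.range π
    rw [h1]
    exact Submodule.smul_mem _ _ ⟨_, rfl⟩
  · rw [finrank_span_eq_card hlin, Fintype.card_fin, hm]

/-- A unipotent operator has determinant one. -/
private theorem sub_det_unip {G : Module.End ℂ E} (h : IsNilpotent (G - 1)) :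
    LinearMap.det G = 1 := by
  let b := Module.finBasis ℂ E
  have h0 : IsNilpotent (LinearMap.toMatrix b b G - 1) := by
    obtain ⟨p, hp⟩ := h
    refine ⟨p, ?_⟩
    have h1 : LinearMap.toMatrixAlgEquiv b (G - 1) = LinearMap.toMatrix b b G - 1 := by
      rw [map_sub, map_one]
      rfl
    rw [← h1, ← map_pow, hp, map_zero]
  have h1 : (LinearMap.toMatrix b b G - 1).charpoly =
      Polynomial.X ^ Fintype.card (Fin (finrank ℂ E)) := by
    have h2 := Matrix.isNilpotent_charpoly_sub_pow_of_isNilpotent h0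
    rw [isNilpotent_iff_eq_zero, sub_eq_zero] at h2
    exact h2
  have h2 := congrArg (Polynomial.eval (-1)) h1
  rw [Matrix.eval_charpoly, Polynomial.eval_pow, Polynomial.eval_X] at h2
  have h3 : Matrix.scalar (Fin (finrank ℂ E)) (-1 : ℂ) - (LinearMap.toMatrix b b G - 1) =
      (-1 : ℂ) • LinearMap.toMatrix b b G := by
    ext i j
    simp only [Matrix.scalar_apply, Matrix.sub_apply, Matrix.smul_apply, Matrix.diagonal_apply,
      Matrix.one_apply, smul_eq_mul]
    split_ifs <;> ring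
  rw [h3, Matrix.det_smul, LinearMap.det_toMatrix] at h2
  exact mul_left_cancel₀ (pow_ne_zero _ (by norm_num : (-1 : ℂ) ≠ 0)) (h2.trans (mul_one _).symm)

end frames

/-- An operator which commutes with the monodromy and preserves the de Rham vectors of the fibre
at `s` is algebraic. -/
private theorem sub_exists_op {B : Curve} {S : Str} (H : Variation B S)
    (π : S.W →ₗ[ℂ] S.W) {s : ℂ} (hs : s ∈ B.U) (hxs : B.x s ∈ Qbar)
    (hD : S.D = Submodule.span Qbar (Set.range fun i => H.ω i s))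
    (hπ : ∀ g ∈ H.deck, ∀ w, g.act (π w) = π (g.act w)) (hπD : ∀ w ∈ S.D, π w ∈ S.D) :
    ∃ (b : Basis (Fin H.n) ℂ S.W) (N : Fin H.n → Fin H.n → ℂ → ℂ), (∀ j k, N j k ∈ B.A) ∧
      ∀ z ∈ B.U, ∀ j, H.wr b z ^ 2 • π (H.ω j z) = ∑ k, N j k z • H.ω k z := by
  classical
  let b : Basis (Fin H.n) ℂ S.W := Basis.mk (H.indep s hs) (H.span s hs).ge
  have hb : ∀ i, b i = H.ω i s := fun i => Basis.mk_apply _ _ i
  have hwr : H.wr b s = 1 := by
    have h1 : (fun i => H.ω i s) = b := funext fun i => (hb i).symm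
    rw [Variation.wr, h1, Basis.det_self]
  obtain ⟨P, hPA, hP⟩ := H.exists_conn
  have hcoord : ∀ w ∈ S.D, ∀ k, b.coord k w ∈ Qbar := by
    intro w hw k
    rw [hD] at hw
    induction hw using Submodule.span_induction with
    | mem x hx =>
      obtain ⟨i, rfl⟩ := hx
      change b.coord k (H.ω i s) ∈ Qbar
      rw [← hb i, Basis.coord_apply, Basis.repr_self, Finsupp.single_apply]
      split_ifs
      · exact one_mem Qbar
      · exact zero_mem Qbar
    | zero =>
      rw [map_zero]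
      exact zero_mem Qbar
    | add x y _ _ hx hy =>
      rw [map_add]
      exact add_mem hx hy
    | smul q x _ hx =>
      have h1 : q • x = (q : ℂ) • x := rfl
      rw [h1, map_smul, smul_eq_mul]
      exact mul_mem q.2 hx
  have hreg : ∀ jk : Fin H.n × Fin H.n, B.RegC (H.opm b π jk.1 jk.2) := fun jk =>
    H.regular _ (H.opm_mem b π jk.1 jk.2) fun g hg z hz => H.opm_deck b π hπ hg hz _ _
  let tr : ℂ → ℂ := (2 : ℕ) • ∑ i, P i i
  have htr : tr ∈ B.A := nsmul_mem (Subalgebra.sum_mem _ fun i _ => hPA i i) 2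
  have htrz : ∀ z, tr z = 2 * ∑ i, P i i z := by
    intro z
    change ((2 : ℕ) • ∑ i, P i i) z = _
    rw [Pi.smul_apply, Finset.sum_apply, nsmul_eq_mul]
    norm_num
  obtain ⟨N, hN, hNz⟩ := B.descent (ι := Fin H.n × Fin H.n) hs hxs
    (y := fun jk => H.opm b π jk.1 jk.2) hreg
    (M := fun jk lm => (if lm.1 = jk.1 ∧ lm.2 = jk.2 then tr else 0) +
      (if lm.2 = jk.2 then P jk.1 lm.1 else 0) - (if lm.1 = jk.1 then P lm.2 jk.2 else 0))
    (fun jk lm => by
      refine sub_mem (add_mem ?_ ?_) ?_ <;> split_ifs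
      · exact htr
      · exact zero_mem _
      · exact hPA _ _
      · exact zero_mem _
      · exact hPA _ _
      · exact zero_mem _)
    (fun jk z hz => by
      refine (H.opm_deriv b π hP hz jk.1 jk.2).congr_deriv ?_
      congr 1
      obtain ⟨j, k⟩ := jk
      simp only [Pi.sub_apply, Pi.add_apply, sub_mul, add_mul, Finset.sum_sub_distrib,
        Finset.sum_add_distrib]
      have e1 : ∑ lm : Fin H.n × Fin H.n, (if lm.1 = j ∧ lm.2 = k then tr else 0) z *
          H.opm b π lm.1 lm.2 z = 2 * (∑ i, P i i z) * H.opm b π j k z := by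
        rw [Finset.sum_eq_single (j, k)]
        · rw [if_pos ⟨rfl, rfl⟩, htrz]
        · rintro ⟨l, m⟩ - hlm
          rw [if_neg (fun h => hlm (Prod.ext h.1 h.2))]
          simp
        · simp
      have e2 : ∑ lm : Fin H.n × Fin H.n, (if lm.2 = k then P j lm.1 else 0) z *
          H.opm b π lm.1 lm.2 z = ∑ l, P j l z * H.opm b π l k z := by
        rw [Fintype.sum_prod_type]
        refine Finset.sum_congr rfl fun l _ => ?_
        rw [Finset.sum_eq_single k]
        · rw [if_pos rfl]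
        · intro m _ hm
          rw [if_neg hm]
          simp
        · simp
      have e3 : ∑ lm : Fin H.n × Fin H.n, (if lm.1 = j then P lm.2 k else 0) z *
          H.opm b π lm.1 lm.2 z = ∑ l, P l k z * H.opm b π j l z := by
        rw [Fintype.sum_prod_type, Finset.sum_eq_single j]
        · exact Finset.sum_congr rfl fun m _ => by rw [if_pos rfl]
        · intro l _ hl
          refine Finset.sum_eq_zero fun m _ => ?_
          rw [if_neg hl]
          simp
        · simp
      rw [e1, e2, e3])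
    (fun jk => by
      obtain ⟨j, k⟩ := jk
      have h1 : π (H.ω j s) = ∑ k, b.coord k (π (H.ω j s)) • H.ω k s := by
        conv_lhs => rw [← b.sum_repr (π (H.ω j s))]
        exact Finset.sum_congr rfl fun k _ => by rw [hb]; rfl
      rw [H.opm_eq b π h1, hwr, one_pow, one_mul]
      refine hcoord _ (hπD _ ?_) k
      rw [hD]
      exact Submodule.subset_span ⟨j, rfl⟩)
  refine ⟨b, fun j k => N (j, k), fun j k => hN _, fun z hz j => ?_⟩
  rw [H.opm_sum b π hz]
  exact Finset.sum_congr rfl fun k _ => by rw [hNz (j, k) z hz]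

variable {S : Str} {k : ℕ} {T : Fin k → Str} (V : LimFam S T)

/-- The matrix of an operator which commutes with the twist has a limit. -/
private theorem sub_lim {π : S.W →ₗ[ℂ] S.W} (hu : ∀ z w, V.u z (π w) = π (V.u z w))
    {b : Basis (Fin V.H.n) ℂ S.W} {N : Fin V.H.n → Fin V.H.n → ℂ → ℂ}
    (hN : ∀ z ∈ V.B.U, ∀ j, V.H.wr b z ^ 2 • π (V.H.ω j z) = ∑ k, N j k z • V.H.ω k z) :
    ∃ (a₀ : ℂ) (N₀ : Matrix (Fin V.H.n) (Fin V.H.n) ℂ), a₀ ≠ 0 ∧
      Tendsto (fun z => (Matrix.of fun j k => N j k z : Matrix (Fin V.H.n) (Fin V.H.n) ℂ)) V.l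
        (𝓝 N₀) ∧ ∀ j, a₀ • π (V.ω j) = ∑ k, N₀ j k • V.ω k := by
  classical
  set A : ℂ → Matrix (Fin V.H.n) (Fin V.H.n) ℂ := fun z =>
    Matrix.of fun i l => b.coord l (V.u z (V.H.ω i z)) with hA
  set A₀ : Matrix (Fin V.H.n) (Fin V.H.n) ℂ := Matrix.of fun i l => b.coord l (V.ω i) with hA₀
  set Q : ℂ → Matrix (Fin V.H.n) (Fin V.H.n) ℂ := fun z =>
    Matrix.of fun i l => b.coord l (π (V.u z (V.H.ω i z))) with hQ
  set Q₀ : Matrix (Fin V.H.n) (Fin V.H.n) ℂ := Matrix.of fun i l => b.coord l (π (V.ω i))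
    with hQ₀
  have hAl : Tendsto A V.l (𝓝 A₀) :=
     tendsto_pi_nhds.2 fun i => tendsto_pi_nhds.2 fun l => V.lim (b.coord l) i
  have hQl : Tendsto Q V.l (𝓝 Q₀) :=
     tendsto_pi_nhds.2 fun i => tendsto_pi_nhds.2 fun l => V.lim (b.coord l ∘ₗ π) i
  -- the determinant of the frame
  have hdet : ∀ z, (A z).det = V.H.wr b z := by
    intro z
    have h1 : (A z).det = b.det fun i => V.u z (V.H.ω i z) := by
      rw [Basis.det_apply, ← Matrix.det_transpose]
      rfl
    have h2 : (b.det fun i => V.u z (V.H.ω i z)) = LinearMap.det (V.u z) * V.H.wr b z := by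
      rw [Variation.wr, ← Basis.det_comp]
      rfl
    rw [h1, h2, sub_det_unip (V.unip z), one_mul]
  have hdet0 : A₀.det ≠ 0 := by
    have h1 : A₀.det = b.det V.ω := by
      rw [Basis.det_apply, ← Matrix.det_transpose]
      rfl
    rw [h1]
    exact ((b.is_basis_iff_det (v := V.ω)).1 V.basis).ne_zero
  -- the matrix of the operator
  have hmul : ∀ z ∈ V.B.U, (Matrix.of fun j k => N j k z : Matrix (Fin V.H.n) (Fin V.H.n) ℂ) * A z =
      (A z).det ^ 2 • Q z := by
    intro z hz
    ext j l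
    rw [Matrix.mul_apply, Matrix.smul_apply, hdet, hQ, hA]
    simp only [Matrix.of_apply]
    have h1 := congrArg (fun w => b.coord l (V.u z w)) (hN z hz j)
    simp only [map_smul, map_sum, hu] at h1
    rw [h1]
    exact Finset.sum_congr rfl fun k _ => rfl
  have hNz : ∀ z ∈ V.B.U, (Matrix.of fun j k => N j k z : Matrix (Fin V.H.n) (Fin V.H.n) ℂ) =
      (A z).det • (Q z * (A z).adjugate) := by
    intro z hz
    have h0 : (A z).det ≠ 0 := by
      rw [hdet]
      exact V.H.wr_ne b hz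
    have h1 := congrArg (fun X => X * (A z).adjugate) (hmul z hz)
    simp only [Matrix.mul_assoc, Matrix.mul_adjugate, Matrix.smul_mul, Matrix.mul_smul,
      Matrix.mul_one] at h1
    have h2 : (A z).det • (Matrix.of fun j k => N j k z : Matrix (Fin V.H.n) (Fin V.H.n) ℂ) =
        (A z).det • ((A z).det • (Q z * (A z).adjugate)) := by
      rw [h1, smul_smul, pow_two]
    exact smul_right_injective _ h0 h2
  refine ⟨A₀.det ^ 2, A₀.det • (Q₀ * A₀.adjugate), pow_ne_zero 2 hdet0, ?_, ?_⟩
  · have h1 : Continuous fun p : Matrix (Fin V.H.n) (Fin V.H.n) ℂ ×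
        Matrix (Fin V.H.n) (Fin V.H.n) ℂ => p.1.det • (p.2 * p.1.adjugate) := by
      exact continuous_fst.matrix_det.smul (continuous_snd.matrix_mul
        continuous_fst.matrix_adjugate)
    have h2 := (h1.tendsto (A₀, Q₀)).comp (hAl.prodMk_nhds hQl)
    refine h2.congr' ?_
    filter_upwards [V.l_U.1] with z hz
    exact (hNz z hz).symm
  · intro j
    have h1 : (A₀.det • (Q₀ * A₀.adjugate)) * A₀ = A₀.det ^ 2 • Q₀ := by
      rw [Matrix.smul_mul, Matrix.mul_assoc, Matrix.adjugate_mul, Matrix.mul_smul,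
        Matrix.mul_one, smul_smul, pow_two]
    refine b.ext_elem fun l => ?_
    have h2 := congrFun (congrFun h1 j) l
    rw [Matrix.mul_apply, Matrix.smul_apply] at h2
    rw [map_smul, map_sum, Finsupp.smul_apply, Finsupp.finsetSum_apply]
    simp only [map_smul, Finsupp.smul_apply, smul_eq_mul]
    rw [smul_eq_mul] at h2
    exact h2.symm

/-- The parts of an action which commutes with the monodromy and the twist have algebraic frames
near the fibre `S` and the limit. -/
theorem LimFam.limSub_of_resp {K : Type} [Field K] [NumberField K]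
    (φ : K →ₙ+* Module.End ℂ S.W) (hφ : ∀ a, IsHom S S (φ a)) (hr : ∀ a, V.Resp (φ a))
    (τ : K →+* ℂ) : V.LimSub (eigenpart φ τ) := by
  obtain ⟨π, hπL, hπD, hπG⟩ := exists_eigProj φ hφ τ
  obtain ⟨b, N, hN, hNz⟩ := sub_exists_op V.H π V.hs.1 V.hs.2 V.dR_s
    (fun g hg => hπG g.act fun x w => ((hr x) w).1 g hg) hπD
  obtain ⟨a₀, N₀, ha₀, hNl, hN₀⟩ := sub_lim V
    (fun z => hπG (V.u z) fun x w => ((hr x) w).2.1 z) hNz
  rw [← hπL]
  obtain ⟨m, hm⟩ : ∃ m, finrank ℂ (LinearMap.range π) = m := ⟨_, rfl⟩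
  have hNz' : ∀ z ∈ V.B.U, ∀ j, V.H.wr b z ^ 2 • π (V.H.ω j z) =
      ∑ k, (Matrix.of fun j k => N j k z : Matrix (Fin V.H.n) (Fin V.H.n) ℂ) j k •
        V.H.ω k z := hNz
  obtain ⟨J₀, K₀, h₀⟩ := sub_minor (V.H.span V.s V.hs.1)
    (pow_ne_zero 2 (V.H.wr_ne b V.hs.1)) (hNz' V.s V.hs.1) hm
  obtain ⟨J₁, K₁, h₁⟩ := sub_minor V.basis.2 ha₀ hN₀ hm
  obtain ⟨l, r, hls, hlt⟩ := exists_sel h₀ h₁
  have hsumA : ∀ i k, (∑ j, l i j • N j k) ∈ V.B.A := fun i k =>
    Subalgebra.sum_mem _ fun j _ => zsmul_mem (hN j k) _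
  have hsumz : ∀ i k z, (∑ j, l i j • N j k) z =
      (l.map (Int.cast : ℤ → ℂ) *
        (Matrix.of fun j k => N j k z : Matrix (Fin V.H.n) (Fin V.H.n) ℂ)) i k := by
    intro i k z
    rw [Finset.sum_apply, Matrix.mul_apply]
    refine Finset.sum_congr rfl fun j _ => ?_
    rw [Pi.smul_apply, zsmul_eq_mul]
    rfl
  refine ⟨m, fun i k => ∑ j, l i j • N j k, fun z => (l.map (Int.cast : ℤ → ℂ) *
    (Matrix.of fun j k => N j k z : Matrix (Fin V.H.n) (Fin V.H.n) ℂ) *
      (r.map (Int.cast : ℤ → ℂ)).transpose).det, fun i k => (l.map (Int.cast : ℤ → ℂ) * N₀) i k,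
      (l.map (Int.cast : ℤ → ℂ) * N₀ * (r.map (Int.cast : ℤ → ℂ)).transpose).det, hsumA, ?_,
      hls, hlt, ?_, ?_, ?_, ?_⟩
  · refine det_mem_subring (R := V.B.A.toSubring)
      (Y := fun z => l.map (Int.cast : ℤ → ℂ) *
        (Matrix.of fun j k => N j k z : Matrix (Fin V.H.n) (Fin V.H.n) ℂ) *
          (r.map (Int.cast : ℤ → ℂ)).transpose) fun i i' => ?_
    have h1 : (fun z => (l.map (Int.cast : ℤ → ℂ) *
        (Matrix.of fun j k => N j k z : Matrix (Fin V.H.n) (Fin V.H.n) ℂ) *
          (r.map (Int.cast : ℤ → ℂ)).transpose) i i') =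
        ∑ k, r i' k • ∑ j, l i j • N j k := by
      funext z
      rw [Matrix.mul_apply, Finset.sum_apply]
      refine Finset.sum_congr rfl fun k _ => ?_
      rw [Pi.smul_apply, hsumz, zsmul_eq_mul, mul_comm]
      rfl
    rw [h1]
    exact Subring.sum_mem _ fun k _ => Subring.zsmul_mem _ (hsumA i k) _
  · have h1 : Continuous fun X : Matrix (Fin V.H.n) (Fin V.H.n) ℂ =>
        (l.map (Int.cast : ℤ → ℂ) * X * (r.map (Int.cast : ℤ → ℂ)).transpose).det := by
      exact ((continuous_const.matrix_mul continuous_id).matrix_mul continuous_const).matrix_det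
    exact (h1.tendsto N₀).comp hNl
  · intro i k
    have h1 : Continuous fun X : Matrix (Fin V.H.n) (Fin V.H.n) ℂ =>
        (l.map (Int.cast : ℤ → ℂ) * X) i k := by
      exact (continuous_const.matrix_mul continuous_id).matrix_elem i k
    refine ((h1.tendsto N₀).comp hNl).congr fun z => ?_
    exact (hsumz i k z).symm
  · intro z hz hrz
    have h1 := sub_frame (V.H.indep z hz) (hNz' z hz) hm hrz
    simp only [← hsumz] at h1
    exact h1
  · exact sub_frame V.basis.1 hN₀ hm hlt

end GD
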